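import Pool.Agent.W356.PMB.Std

set_option autoImplicit false

/-!
# Assembly of the projective part
-/

namespace Pool.Agent.W356.PMB

open Pool.Agent.W553.PMB Set Filter Topology

theorem exists_equiv (B : V →ₗ[ℝ] V →ₗ[ℝ] ℝ) (hs : ∀ x y, B x y = B y x)
    (hpos : ∀ x, x ≠ 0 → 0 < B x x) : ∃ g : V ≃ₗ[ℝ] V, ∀ x y, B x y = inner ℝ (g x) (g y) := by
  have hsymm : LinearMap.IsSymm B := ⟨fun x y => by simpa using hs x y⟩
  obtain ⟨v0, hv0⟩ := LinearMap.BilinForm.exists_orthogonal_basis (B := B) hsymm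
  have hfin : Module.finrank ℝ V = 3 := by simp
  set v := v0.reindex (finCongr hfin) with hv
  have hvo : ∀ i j, i ≠ j → B (v i) (v j) = 0 := by
    intro i j hij
    rw [hv, Module.Basis.reindex_apply, Module.Basis.reindex_apply]
    apply hv0
    intro h
    exact hij ((finCongr hfin).symm.injective h)
  have hvp : ∀ i, 0 < B (v i) (v i) := fun i => hpos _ (v.ne_zero i)
  have hu : ∀ i, IsUnit ((Real.sqrt (B (v i) (v i)))⁻¹) := by
    intro i
    exact (inv_ne_zero (Real.sqrt_ne_zero'.mpr (hvp i))).isUnit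
  set b := v.isUnitSMul hu with hb
  have hbi : ∀ i, b i = (Real.sqrt (B (v i) (v i)))⁻¹ • v i := fun i => v.isUnitSMul_apply hu i
  have hbo : ∀ i j, B (b i) (b j) = if i = j then 1 else 0 := by
    intro i j
    rw [hbi, hbi]
    simp only [map_smul, LinearMap.smul_apply, smul_eq_mul]
    split_ifs with h
    · subst h
      have h1 := Real.mul_self_sqrt (hvp i).le
      have h2 := Real.sqrt_ne_zero'.mpr (hvp i)
      field_simp
      nlinarith
    · rw [hvo i j h]; ring
  refine ⟨b.equivFun.trans (WithLp.linearEquiv 2 ℝ (Fin 3 → ℝ)).symm, ?_⟩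
  intro x y
  have h1 : B x y = ∑ i, b.repr x i * b.repr y i := by
    conv_lhs => rw [← b.sum_repr x, ← b.sum_repr y]
    simp only [map_sum, LinearMap.sum_apply, map_smul, LinearMap.smul_apply, smul_eq_mul, hbo,
      mul_ite, mul_one, mul_zero, Finset.sum_ite_eq', Finset.mem_univ, if_true]
    exact Finset.sum_congr rfl fun i _ => mul_comm _ _
  rw [h1, PiLp.inner_apply]
  refine Finset.sum_congr rfl fun i _ => ?_
  simp [Module.Basis.equivFun_apply, mul_comm]

theorem T_finB (h1 : S_pole) (h2 : S_bij) (h3 : S_form) (h4 : S_lin) (h5 : S_std) : S_finB := by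
  intro δ Λ h
  obtain ⟨B, hBs, hBp, hB⟩ := h3 (fun x y => δ x y = Λ / 2)
    (fun x y hx hy hxy => by rw [h.symm y x hy hx]; exact hxy)
    (fun P hP => h2 δ Λ h P hP)
    (fun φ hφ => by
      obtain ⟨P, hP, hPY⟩ := h1 δ Λ h φ hφ
      refine ⟨P, ?_, fun Y hY hφY => hPY Y hY hφY⟩
      intro h0; rw [h0, map_zero] at hP; exact hP rfl)
  obtain ⟨g, hg⟩ := exists_equiv B hBs hBp
  refine ⟨g, fun x y hx hy => ?_⟩
  have hE := h4 δ Λ h g.symm
  have hstd := h5 (fun x y => δ (g.symm x) (g.symm y)) Λ hE (by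
    intro u v hu hv
    have hu' : g.symm u ≠ 0 := by simpa using hu
    have hv' : g.symm v ≠ 0 := by simpa using hv
    have := hB _ _ hu' hv'
    rw [this, hg, LinearEquiv.apply_symm_apply, LinearEquiv.apply_symm_apply])
  have hgx : g x ≠ 0 := by simpa using hx
  have hgy : g y ≠ 0 := by simpa using hy
  have nx : ‖g x‖ ≠ 0 := norm_ne_zero_iff.mpr hgx
  have ny : ‖g y‖ ≠ 0 := norm_ne_zero_iff.mpr hgy
  have h6 := hstd (‖g x‖⁻¹ • g x) (‖g y‖⁻¹ • g y)
    (by rw [norm_smul, norm_inv, norm_norm, inv_mul_cancel₀ nx])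
    (by rw [norm_smul, norm_inv, norm_norm, inv_mul_cancel₀ ny])
  have h7 := hE.hom (g x) (‖g y‖⁻¹ • g y) hgx (smul_ne_zero (inv_ne_zero ny) hgy) _ (inv_ne_zero nx)
  have h8 := hom2 hE hgx hgy (inv_ne_zero ny)
  rw [h7, h8, LinearEquiv.symm_apply_apply, LinearEquiv.symm_apply_apply, real_inner_smul_left,
    real_inner_smul_right, abs_mul, abs_mul, abs_inv, abs_inv, abs_norm, abs_norm] at h6
  rw [h6]
  congr 2
  field_simp

end Pool.Agent.W356.PMB
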