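import Pool.Agent.W553.PM.StmB

set_option autoImplicit false

/-!
# An elliptic polarity of the real projective plane comes from a definite form
-/

namespace Pool.Agent.W356.PMB

open Pool.Agent.W553.PMB

/-- The functional equation, first part: `g / g 1` is multiplicative and an involution. -/
theorem half (g k : ℝ → ℝ) (hg0 : g 0 = 0) (hg : ∀ u, u ≠ 0 → g u ≠ 0)
    (hk : ∀ v, v ≠ 0 → k v ≠ 0)
    (star : ∀ u v u' v', 1 + g u * u' + k v * v' = 0 → 1 + g u' * u + k v' * v = 0) :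
    (∀ u u', -k (-(1 + g u * u') / k 1) = 1 + g u' * u) ∧
    (∀ x y, g (x * y) / g 1 = (g x / g 1) * (g y / g 1)) ∧
    (∀ x, g (g x / g 1) / g 1 = x) := by
  have hg1 : g 1 ≠ 0 := hg 1 one_ne_zero
  have hk1 : k 1 ≠ 0 := hk 1 one_ne_zero
  have e1 : ∀ u u', -k (-(1 + g u * u') / k 1) = 1 + g u' * u := by
    intro u u'
    have h0 : 1 + g u * u' + k 1 * (-(1 + g u * u') / k 1) = 0 := by
      rw [mul_div_cancel₀ _ hk1]; ring
    have := star u 1 u' _ h0
    linarith
  -- F (g u * u') = g u' * u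
  have e2 : ∀ u u', g (g u * u' / g 1) = g u' * u := by
    intro u u'
    have h1 := e1 u u'
    have h2 := e1 1 (g u * u' / g 1)
    rw [mul_div_cancel₀ _ hg1, mul_one] at h2
    linarith
  have inv : ∀ x, g (g x / g 1) / g 1 = x := by
    intro x
    have := e2 x 1
    rw [mul_one] at this
    rw [this, mul_div_assoc, mul_comm, div_mul_cancel₀ _ hg1]
  refine ⟨e1, ?_, inv⟩
  intro x y
  have h1 := e2 (g x / g 1) y
  have h2 : g (g x / g 1) = x * g 1 := by
    have := inv x
    rwa [div_eq_iff hg1] at this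
  rw [h2, mul_assoc, mul_comm (g 1) y, ← mul_assoc, mul_div_assoc, div_self hg1, mul_one] at h1
  rw [h1]
  field_simp

theorem alg (g k : ℝ → ℝ) (hg0 : g 0 = 0) (hk0 : k 0 = 0) (hg : ∀ u, u ≠ 0 → g u ≠ 0)
    (hk : ∀ v, v ≠ 0 → k v ≠ 0)
    (star : ∀ u v u' v', 1 + g u * u' + k v * v' = 0 → 1 + g u' * u + k v' * v = 0) :
    (∀ u, g u = g 1 * u) ∧ (∀ v, k v = k 1 * v) := by
  have hg1 : g 1 ≠ 0 := hg 1 one_ne_zero
  have hk1 : k 1 ≠ 0 := hk 1 one_ne_zero
  obtain ⟨E, Mmul, Minv⟩ := half g k hg0 hg hk star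
  obtain ⟨-, Nmul, Ninv⟩ := half k g hk0 hk hg (fun u v u' v' h => by
    have := star v u v' u' (by linarith)
    linarith)
  set M : ℝ → ℝ := fun x => g x / g 1 with hM
  set N : ℝ → ℝ := fun x => k x / k 1 with hN
  have Mmul' : ∀ x y, M (x * y) = M x * M y := Mmul
  have Nmul' : ∀ x y, N (x * y) = N x * N y := Nmul
  have Minv' : ∀ x, M (M x) = x := Minv
  have Ninv' : ∀ x, N (N x) = x := Ninv
  have M1 : M 1 = 1 := div_self hg1
  have N1 : N 1 = 1 := div_self hk1
  have M0 : M 0 = 0 := by simp [hM, hg0]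
  have N0 : N 0 = 0 := by simp [hN, hk0]
  have Minj : ∀ x y, M x = M y → x = y := fun x y h => by rw [← Minv' x, h, Minv' y]
  have Ninj : ∀ x y, N x = N y → x = y := fun x y h => by rw [← Ninv' x, h, Ninv' y]
  have hkN : ∀ x, k x = k 1 * N x := fun x => by simp only [hN]; field_simp
  have hgM : ∀ x, g x = g 1 * M x := fun x => by simp only [hM]; field_simp
  -- f t = -k (-t / k 1) is N
  have hf : ∀ t, -k (-t / k 1) = N t := by
    have h1 : ∀ t, -k (-t / k 1) = (-k 1 * N (-(1 / k 1))) * N t := by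
      intro t
      rw [hkN (-t / k 1), show -t / k 1 = -(1 / k 1) * t by ring, Nmul']
      ring
    have h2 : (-k 1 * N (-(1 / k 1))) = 1 := by
      have h3 := E 0 0
      rw [hg0] at h3
      have h4 := h1 (1 + 0 * 0)
      rw [h4] at h3
      have : N (1 + 0 * 0) = 1 := by norm_num [N1]
      rw [this] at h3
      linarith
    intro t
    rw [h1 t, h2, one_mul]
  -- N (1 + g 1 * x) = 1 + g x
  have h5 : ∀ x, N (1 + g 1 * x) = 1 + g x := by
    intro x
    have := E 1 x
    rw [hf] at this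
    rw [this, mul_one]
  have h6 : ∀ x, N (1 + x) = 1 + (g 1 * M (1 / g 1)) * M x := by
    intro x
    have := h5 (x / g 1)
    rw [mul_div_cancel₀ _ hg1] at this
    rw [this, hgM (x / g 1), show x / g 1 = (1 / g 1) * x by ring, Mmul']
    ring
  have Mneg : M (-1) = -1 := by
    have h7 : M (-1) * M (-1) = 1 := by rw [← Mmul']; norm_num [M1]
    have h8 : (M (-1) - 1) * (M (-1) + 1) = 0 := by linarith
    rcases mul_eq_zero.mp h8 with h | h
    · exfalso
      have : M (-1) = M 1 := by rw [M1]; linarith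
      have := Minj _ _ this
      norm_num at this
    · linarith
  have Nneg : N (-1) = -1 := by
    have h7 : N (-1) * N (-1) = 1 := by rw [← Nmul']; norm_num [N1]
    have h8 : (N (-1) - 1) * (N (-1) + 1) = 0 := by linarith
    rcases mul_eq_zero.mp h8 with h | h
    · exfalso
      have : N (-1) = N 1 := by rw [N1]; linarith
      have := Ninj _ _ this
      norm_num at this
    · linarith
  have h9 : g 1 * M (1 / g 1) = 1 := by
    have := h6 (-1)
    rw [Mneg] at this
    norm_num [N0] at this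
    have h10 : g 1 * M (1 / g 1) = g 1 * M (g 1)⁻¹ := by rw [one_div]
    linarith
  have h10 : ∀ x, N (1 + x) = 1 + M x := by
    intro x; rw [h6 x, h9, one_mul]
  have NM : ∀ x, N x = M x := by
    intro x
    by_cases hx0 : x = 0
    · rw [hx0, N0, M0]
    by_cases hx1 : x = -1
    · rw [hx1, Nneg, Mneg]
    have hMx : M x ≠ 0 := by
      intro h
      exact hx0 (Minj x 0 (by rw [h, M0]))
    have h11 : N (1 + x) = N x * N (1 + 1 / x) := by
      rw [← Nmul']; congr 1; field_simp; ring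
    rw [h10, h10] at h11
    have h12 : M x * M (1 / x) = 1 := by
      rw [← Mmul', mul_one_div_cancel hx0, M1]
    have h13 : 1 + M x ≠ 0 := by
      intro h
      exact hx1 (Minj x (-1) (by rw [Mneg]; linarith))
    have h14 : M x * (1 + M x) = N x * (1 + M x) := by
      calc M x * (1 + M x) = M x * (N x * (1 + M (1 / x))) := by rw [h11]
        _ = N x * (M x + M x * M (1 / x)) := by ring
        _ = N x * (1 + M x) := by rw [h12]; ring
    exact (mul_right_cancel₀ h13 h14).symm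
  have Madd1 : ∀ x, M (1 + x) = 1 + M x := fun x => by rw [← NM, h10]
  have Madd : ∀ x y, M (x + y) = M x + M y := by
    intro x y
    by_cases hx0 : x = 0
    · rw [hx0, M0, zero_add, zero_add]
    · have h15 : x + y = x * (1 + y / x) := by field_simp
      rw [h15, Mmul', Madd1, mul_add, mul_one, ← Mmul', mul_div_cancel₀ _ hx0]
  let φ : ℝ →+* ℝ :=
    { toFun := M
      map_one' := M1
      map_mul' := Mmul'
      map_zero' := M0
      map_add' := Madd }
  have hid : φ = RingHom.id ℝ := Subsingleton.elim _ _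
  have Mid : ∀ x, M x = x := by
    intro x
    have := congrArg (fun ψ : ℝ →+* ℝ => ψ x) hid
    exact this
  refine ⟨fun u => ?_, fun v => ?_⟩
  · rw [hgM u, Mid]
  · rw [hkN v, NM, Mid]

/-- Nonzero triples. -/
def nz (a b c : ℝ) : Prop := a ≠ 0 ∨ b ≠ 0 ∨ c ≠ 0

/-- The coordinate version. -/
theorem core (S : ℝ → ℝ → ℝ → ℝ → ℝ → ℝ → Prop)
    (hs : ∀ a b c a' b' c', nz a b c → nz a' b' c' → S a b c a' b' c' → S a' b' c' a b c)
    (hφ : ∀ a b c, nz a b c → ∃ p q r : ℝ, p * a + q * b + r * c ≠ 0 ∧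
      ∀ a' b' c', nz a' b' c' → (S a b c a' b' c' ↔ p * a' + q * b' + r * c' = 0))
    (h12 : S 1 0 0 0 1 0) (h13 : S 1 0 0 0 0 1) (h23 : S 0 1 0 0 0 1) :
    ∃ k2 k3 : ℝ, 0 < k2 ∧ 0 < k3 ∧ ∀ a b c a' b' c', nz a b c → nz a' b' c' →
      (S a b c a' b' c' ↔ a * a' + k2 * (b * b') + k3 * (c * c') = 0) := by
  have hsi : ∀ a b c a' b' c', nz a b c → nz a' b' c' → (S a b c a' b' c' ↔ S a' b' c' a b c) :=
    fun a b c a' b' c' h h' => ⟨hs _ _ _ _ _ _ h h', hs _ _ _ _ _ _ h' h⟩
  have n1 : nz 1 0 0 := Or.inl one_ne_zero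
  have n2 : nz 0 1 0 := Or.inr (Or.inl one_ne_zero)
  have n3 : nz 0 0 1 := Or.inr (Or.inr one_ne_zero)
  have nu : ∀ u v, nz 1 u v := fun u v => Or.inl one_ne_zero
  have E1 : ∀ a b c, nz a b c → (S 1 0 0 a b c ↔ a = 0) := by
    obtain ⟨p, q, r, h0, h⟩ := hφ 1 0 0 n1
    have hq := (h 0 1 0 n2).mp h12
    have hr := (h 0 0 1 n3).mp h13
    intro a b c hn
    rw [h a b c hn]
    have hp : p ≠ 0 := by intro hp; apply h0; rw [hp]; ring
    have hq0 : q = 0 := by linarith
    have hr0 : r = 0 := by linarith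
    rw [hq0, hr0]
    constructor
    · intro h; have : p * a = 0 := by linarith
      exact (mul_eq_zero.mp this).resolve_left hp
    · intro h; rw [h]; ring
  have E2 : ∀ a b c, nz a b c → (S 0 1 0 a b c ↔ b = 0) := by
    obtain ⟨p, q, r, h0, h⟩ := hφ 0 1 0 n2
    have hp := (h 1 0 0 n1).mp (hs _ _ _ _ _ _ n1 n2 h12)
    have hr := (h 0 0 1 n3).mp h23
    intro a b c hn
    rw [h a b c hn]
    have hq : q ≠ 0 := by intro hq; apply h0; rw [hq]; ring
    have hp0 : p = 0 := by linarith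
    have hr0 : r = 0 := by linarith
    rw [hp0, hr0]
    constructor
    · intro h; have : q * b = 0 := by linarith
      exact (mul_eq_zero.mp this).resolve_left hq
    · intro h; rw [h]; ring
  have E3 : ∀ a b c, nz a b c → (S 0 0 1 a b c ↔ c = 0) := by
    obtain ⟨p, q, r, h0, h⟩ := hφ 0 0 1 n3
    have hp := (h 1 0 0 n1).mp (hs _ _ _ _ _ _ n1 n3 h13)
    have hq := (h 0 1 0 n2).mp (hs _ _ _ _ _ _ n2 n3 h23)
    intro a b c hn
    rw [h a b c hn]
    have hr : r ≠ 0 := by intro hr; apply h0; rw [hr]; ring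
    have hp0 : p = 0 := by linarith
    have hq0 : q = 0 := by linarith
    rw [hp0, hq0]
    constructor
    · intro h; have : r * c = 0 := by linarith
      exact (mul_eq_zero.mp this).resolve_left hr
    · intro h; rw [h]; ring
  -- normalised functionals
  have hG : ∀ u v, ∃ g k : ℝ, ∀ a b c, nz a b c → (S 1 u v a b c ↔ a + g * b + k * c = 0) := by
    intro u v
    obtain ⟨p, q, r, -, h⟩ := hφ 1 u v (nu u v)
    have hp : p ≠ 0 := by
      intro hp
      have h1 : S 1 u v 1 0 0 := (h 1 0 0 n1).mpr (by rw [hp]; ring)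
      have h2 := (E1 1 u v (nu u v)).mp (hs _ _ _ _ _ _ (nu u v) n1 h1)
      exact one_ne_zero h2
    refine ⟨q / p, r / p, fun a b c hn => ?_⟩
    rw [h a b c hn]
    constructor
    · intro h1
      field_simp
      linarith
    · intro h1
      field_simp at h1
      linarith
  choose G2 G3 hG using hG
  have G2v : ∀ u v v', G2 u v' = G2 u v := by
    intro u v v'
    have hN : nz (-G2 u v) 1 0 := Or.inr (Or.inl one_ne_zero)
    have h1 : S 1 u v (-G2 u v) 1 0 := (hG u v _ _ _ hN).mpr (by ring)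
    have h2 : S (-G2 u v) 1 0 1 u v := hs _ _ _ _ _ _ (nu u v) hN h1
    have h3 : S (-G2 u v) 1 0 0 0 1 := hs _ _ _ _ _ _ n3 hN ((E3 _ _ _ hN).mpr rfl)
    obtain ⟨p, q, r, -, h⟩ := hφ _ _ _ hN
    have h4 := (h _ _ _ (nu u v)).mp h2
    have h5 := (h _ _ _ n3).mp h3
    have hr : r = 0 := by linarith
    have h6 : S (-G2 u v) 1 0 1 u v' := (h _ _ _ (nu u v')).mpr (by rw [hr] at h4 ⊢; linarith)
    have h7 := (hG u v' _ _ _ hN).mp (hs _ _ _ _ _ _ hN (nu u v') h6)
    linarith
  have G3u : ∀ u u' v, G3 u' v = G3 u v := by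
    intro u u' v
    have hN : nz (-G3 u v) 0 1 := Or.inr (Or.inr one_ne_zero)
    have h1 : S 1 u v (-G3 u v) 0 1 := (hG u v _ _ _ hN).mpr (by ring)
    have h2 : S (-G3 u v) 0 1 1 u v := hs _ _ _ _ _ _ (nu u v) hN h1
    have h3 : S (-G3 u v) 0 1 0 1 0 := hs _ _ _ _ _ _ n2 hN ((E2 _ _ _ hN).mpr rfl)
    obtain ⟨p, q, r, -, h⟩ := hφ _ _ _ hN
    have h4 := (h _ _ _ (nu u v)).mp h2
    have h5 := (h _ _ _ n2).mp h3
    have hq : q = 0 := by linarith
    have h6 : S (-G3 u v) 0 1 1 u' v := (h _ _ _ (nu u' v)).mpr (by rw [hq] at h4 ⊢; linarith)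
    have h7 := (hG u' v _ _ _ hN).mp (hs _ _ _ _ _ _ hN (nu u' v) h6)
    linarith
  set g : ℝ → ℝ := fun u => G2 u 0 with hg
  set k : ℝ → ℝ := fun v => G3 0 v with hk
  have hS : ∀ u v a b c, nz a b c → (S 1 u v a b c ↔ a + g u * b + k v * c = 0) := by
    intro u v a b c hn
    rw [hG u v a b c hn, G2v u 0 v, G3u 0 u v]
  have g0 : g 0 = 0 := by
    have := (hS 0 0 0 1 0 n2).mp h12
    linarith
  have k0 : k 0 = 0 := by
    have := (hS 0 0 0 0 1 n3).mp h13
    linarith
  have gne : ∀ u, u ≠ 0 → g u ≠ 0 := by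
    intro u hu h
    apply hu
    have h1 : S 1 u 0 0 1 0 := (hS u 0 0 1 0 n2).mpr (by rw [h]; ring)
    exact (E2 1 u 0 (nu u 0)).mp (hs _ _ _ _ _ _ (nu u 0) n2 h1)
  have kne : ∀ v, v ≠ 0 → k v ≠ 0 := by
    intro v hv h
    apply hv
    have h1 : S 1 0 v 0 0 1 := (hS 0 v 0 0 1 n3).mpr (by rw [h]; ring)
    exact (E3 1 0 v (nu 0 v)).mp (hs _ _ _ _ _ _ (nu 0 v) n3 h1)
  have star : ∀ u v u' v', 1 + g u * u' + k v * v' = 0 → 1 + g u' * u + k v' * v = 0 := by
    intro u v u' v' h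
    have h1 : S 1 u v 1 u' v' := (hS u v 1 u' v' (nu u' v')).mpr h
    exact (hS u' v' 1 u v (nu u v)).mp (hs _ _ _ _ _ _ (nu u v) (nu u' v') h1)
  obtain ⟨hg', hk'⟩ := alg g k g0 k0 gne kne star
  have g1 : g 1 ≠ 0 := gne 1 one_ne_zero
  have k1 : k 1 ≠ 0 := kne 1 one_ne_zero
  have nzs : ∀ a b c t, nz a b c → t ≠ 0 → nz (t * a) (t * b) (t * c) := by
    intro a b c t h ht
    rcases h with h | h | h
    · exact Or.inl (mul_ne_zero ht h)
    · exact Or.inr (Or.inl (mul_ne_zero ht h))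
    · exact Or.inr (Or.inr (mul_ne_zero ht h))
  have scal : ∀ a b c a' b' c' t, nz a b c → nz a' b' c' → t ≠ 0 →
      (S (t * a) (t * b) (t * c) a' b' c' ↔ S a b c a' b' c') := by
    intro a b c a' b' c' t h h' ht
    rw [hsi _ _ _ _ _ _ (nzs _ _ _ _ h ht) h', hsi _ _ _ _ _ _ h h']
    obtain ⟨p, q, r, -, h1⟩ := hφ _ _ _ h'
    rw [h1 _ _ _ (nzs _ _ _ _ h ht), h1 _ _ _ h]
    have : p * (t * a) + q * (t * b) + r * (t * c) = t * (p * a + q * b + r * c) := by ring
    rw [this, mul_eq_zero, or_iff_right ht]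
  have main1 : ∀ a b c a' b' c', a ≠ 0 → nz a' b' c' →
      (S a b c a' b' c' ↔ a * a' + g 1 * (b * b') + k 1 * (c * c') = 0) := by
    intro a b c a' b' c' ha h'
    have h1 := scal 1 (b / a) (c / a) a' b' c' a (nu _ _) h' ha
    rw [mul_one, mul_div_cancel₀ _ ha, mul_div_cancel₀ _ ha] at h1
    rw [h1, hS _ _ _ _ _ h', hg' (b / a), hk' (c / a)]
    have h2 : a * a' + g 1 * (b * b') + k 1 * (c * c') =
        a * (a' + g 1 * (b / a) * b' + k 1 * (c / a) * c') := by
      field_simp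
    rw [h2, mul_eq_zero, or_iff_right ha]
  have main : ∀ a b c a' b' c', nz a b c → nz a' b' c' →
      (S a b c a' b' c' ↔ a * a' + g 1 * (b * b') + k 1 * (c * c') = 0) := by
    intro a b c a' b' c' h h'
    by_cases ha : a = 0
    · by_cases ha' : a' = 0
      · subst ha ha'
        obtain ⟨p, q, r, -, hh⟩ := hφ _ _ _ h
        have hp : p = 0 := by
          have h1 : S 0 b c 1 0 0 := hs _ _ _ _ _ _ n1 h ((E1 _ _ _ h).mpr rfl)
          have := (hh _ _ _ n1).mp h1
          linarith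
        have h2 : S 0 b c 0 b' c' ↔ S 0 b c 1 b' c' := by
          rw [hh _ _ _ h', hh _ _ _ (nu b' c'), hp]
          constructor <;> intro h <;> linarith
        rw [h2, hsi _ _ _ _ _ _ h (nu b' c'), main1 1 b' c' 0 b c one_ne_zero h]
        constructor <;> intro h <;> linarith
      · rw [hsi _ _ _ _ _ _ h h', main1 a' b' c' a b c ha' h]
        constructor <;> intro h <;> linarith
    · exact main1 a b c a' b' c' ha h'
  have irr : ∀ a b c, nz a b c → a * a + g 1 * (b * b) + k 1 * (c * c) ≠ 0 := by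
    intro a b c h h0
    have h1 := (main a b c a b c h h).mpr h0
    obtain ⟨p, q, r, h2, h3⟩ := hφ _ _ _ h
    exact h2 ((h3 _ _ _ h).mp h1)
  refine ⟨g 1, k 1, ?_, ?_, main⟩
  · by_contra hn
    have hlt : g 1 < 0 := lt_of_le_of_ne (not_lt.mp hn) g1
    apply irr (Real.sqrt (-g 1)) 1 0 (Or.inr (Or.inl one_ne_zero))
    rw [Real.mul_self_sqrt (by linarith)]
    ring
  · by_contra hn
    have hlt : k 1 < 0 := lt_of_le_of_ne (not_lt.mp hn) k1
    apply irr (Real.sqrt (-k 1)) 0 1 (Or.inr (Or.inr one_ne_zero))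
    rw [Real.mul_self_sqrt (by linarith)]
    ring

theorem T_form : S_form := by
  intro R hs hφ _
  -- choose e1, e2, e3
  obtain ⟨e1, he1⟩ : ∃ e : V, e ≠ 0 := exists_ne 0
  obtain ⟨φ1, hφ1, hR1⟩ := hφ e1 he1
  have hfin : Module.finrank ℝ V = 3 := by simp
  -- a nonzero vector in the common kernel of two functionals
  have ker2 : ∀ φ ψ : V →ₗ[ℝ] ℝ, ∃ e : V, e ≠ 0 ∧ φ e = 0 ∧ ψ e = 0 := by
    intro φ ψ
    have h1 : ¬ Function.Injective (φ.prod ψ) := by
      intro hinj
      have := LinearMap.finrank_le_finrank_of_injective hinj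
      rw [hfin] at this
      simp at this
    have h2 : LinearMap.ker (φ.prod ψ) ≠ ⊥ := by
      rwa [Ne, LinearMap.ker_eq_bot]
    obtain ⟨e, he, hne⟩ := Submodule.exists_mem_ne_zero_of_ne_bot h2
    have h3 := LinearMap.mem_ker.mp he
    exact ⟨e, hne, congrArg Prod.fst h3, congrArg Prod.snd h3⟩
  obtain ⟨e2, he2, h12, -⟩ := ker2 φ1 φ1
  obtain ⟨φ2, hφ2, hR2⟩ := hφ e2 he2
  obtain ⟨e3, he3, h13, h23⟩ := ker2 φ1 φ2
  have R12 : R e1 e2 := (hR1 e2 he2).mpr h12
  have R13 : R e1 e3 := (hR1 e3 he3).mpr h13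
  have R23 : R e2 e3 := (hR2 e3 he3).mpr h23
  have h21 : φ2 e1 = 0 := (hR2 e1 he1).mp (hs _ _ he1 he2 R12)
  set E : ℝ → ℝ → ℝ → V := fun a b c => a • e1 + b • e2 + c • e3 with hE
  have hE0 : ∀ a b c, E a b c = 0 → a = 0 ∧ b = 0 ∧ c = 0 := by
    intro a b c h
    have ha : a = 0 := by
      have h1 := congrArg φ1 h
      simp only [hE, map_add, map_smul, smul_eq_mul, map_zero, h12, h13, mul_zero, add_zero] at h1
      exact (mul_eq_zero.mp h1).resolve_right hφ1
    have hb : b = 0 := by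
      have h1 := congrArg φ2 h
      simp only [hE, map_add, map_smul, smul_eq_mul, map_zero, h21, h23, mul_zero, add_zero, zero_add]
        at h1
      exact (mul_eq_zero.mp h1).resolve_right hφ2
    refine ⟨ha, hb, ?_⟩
    simp only [hE, ha, hb, zero_smul, zero_add] at h
    exact (smul_eq_zero.mp h).resolve_right he3
  have hnz : ∀ a b c, nz a b c → E a b c ≠ 0 := by
    intro a b c h h0
    obtain ⟨ha, hb, hc⟩ := hE0 a b c h0
    rcases h with h | h | h
    · exact h ha
    · exact h hb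
    · exact h hc
  obtain ⟨k2, k3, hk2, hk3, hmain⟩ := core (fun a b c a' b' c' => R (E a b c) (E a' b' c'))
    (fun a b c a' b' c' h h' => hs _ _ (hnz _ _ _ h) (hnz _ _ _ h'))
    (fun a b c h => by
      obtain ⟨φ, h0, h1⟩ := hφ (E a b c) (hnz _ _ _ h)
      refine ⟨φ e1, φ e2, φ e3, ?_, fun a' b' c' h' => ?_⟩
      · intro h2; apply h0
        simp only [hE, map_add, map_smul, smul_eq_mul]
        linarith
      · rw [h1 _ (hnz _ _ _ h')]
        simp only [hE, map_add, map_smul, smul_eq_mul]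
        constructor <;> intro h <;> linarith)
    (by simpa [hE] using R12) (by simpa [hE] using R13) (by simpa [hE] using R23)
  have hli : LinearIndependent ℝ ![e1, e2, e3] := by
    rw [Fintype.linearIndependent_iff]
    intro t ht
    rw [Fin.sum_univ_three] at ht
    obtain ⟨h0, h1, h2⟩ := hE0 (t 0) (t 1) (t 2) ht
    intro i
    fin_cases i
    · exact h0
    · exact h1
    · exact h2
  let b := basisOfLinearIndependentOfCardEqFinrank hli (by simp)
  have hb : ∀ x : V, x = E (b.coord 0 x) (b.coord 1 x) (b.coord 2 x) := by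
    intro x
    have h1 := b.sum_repr x
    rw [Fin.sum_univ_three] at h1
    simp only [b, coe_basisOfLinearIndependentOfCardEqFinrank] at h1
    exact h1.symm
  have hbnz : ∀ x : V, x ≠ 0 → nz (b.coord 0 x) (b.coord 1 x) (b.coord 2 x) := by
    intro x hx
    by_contra hn
    unfold nz at hn
    push Not at hn
    apply hx
    rw [hb x, hn.1, hn.2.1, hn.2.2]
    simp [hE]
  refine ⟨LinearMap.mk₂ ℝ (fun x y => b.coord 0 x * b.coord 0 y + k2 * (b.coord 1 x * b.coord 1 y) +
    k3 * (b.coord 2 x * b.coord 2 y)) ?_ ?_ ?_ ?_, ?_, ?_, ?_⟩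
  · intro x y z; simp only [map_add]; ring
  · intro c x y; simp only [map_smul, smul_eq_mul]; ring
  · intro x y z; simp only [map_add]; ring
  · intro c x y; simp only [map_smul, smul_eq_mul]; ring
  · intro x y
    simp only [LinearMap.mk₂_apply]; ring
  · intro x hx
    simp only [LinearMap.mk₂_apply]
    rcases hbnz x hx with h | h | h
    · have := mul_self_pos.mpr h
      have h1 := mul_self_nonneg (b.coord 1 x)
      have h2 := mul_self_nonneg (b.coord 2 x)
      positivity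
    · have := mul_self_pos.mpr h
      have h1 := mul_self_nonneg (b.coord 0 x)
      have h2 := mul_self_nonneg (b.coord 2 x)
      positivity
    · have := mul_self_pos.mpr h
      have h1 := mul_self_nonneg (b.coord 0 x)
      have h2 := mul_self_nonneg (b.coord 1 x)
      positivity
  · intro x y hx hy
    simp only [LinearMap.mk₂_apply]
    have := hmain _ _ _ _ _ _ (hbnz x hx) (hbnz y hy)
    rw [← hb x, ← hb y] at this
    exact this

end Pool.Agent.W356.PMB
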