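import Pool.Agent.W356.PMB.Std

set_option autoImplicit false

/-!
# Distances at most half the length, attained feet, foot directions
-/

namespace Pool.Agent.W356.PMB

open Pool.Agent.W553.PMB Set Filter Topology

section

variable {δ : V → V → ℝ} {Λ : ℝ}

theorem isOpen_pairs : IsOpen {p : V × V | p.1 ≠ 0 ∧ p.2 ≠ 0} := by
  apply IsOpen.inter
  · exact isOpen_ne_fun continuous_fst continuous_const
  · exact isOpen_ne_fun continuous_snd continuous_const

theorem contAt (h : EMet δ Λ) {x y : V} (hx : x ≠ 0) (hy : y ≠ 0) :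
    ContinuousAt (fun p : V × V => δ p.1 p.2) (x, y) :=
  h.cont.continuousAt (isOpen_pairs.mem_nhds ⟨hx, hy⟩)

theorem self_zero (h : EMet δ Λ) {x : V} (hx : x ≠ 0) : δ x x = 0 := by
  rw [h.zero x x hx hx]
  intro hli
  rw [LinearIndependent.pair_iff] at hli
  have := hli 1 (-1) (by simp)
  exact one_ne_zero this.1

theorem indep {φ : V →ₗ[ℝ] ℝ} {w θ : V} (hw : φ w ≠ 0) (hθ : θ ≠ 0) (hφ : φ θ = 0) :
    LinearIndependent ℝ ![w, θ] := by
  rw [LinearIndependent.pair_iff]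
  intro s t hst
  have h1 := congrArg φ hst
  simp only [map_add, map_smul, smul_eq_mul, map_zero, hφ, mul_zero, add_zero] at h1
  have hs := (mul_eq_zero.mp h1).resolve_right hw
  refine ⟨hs, ?_⟩
  rw [hs, zero_smul, zero_add] at hst
  exact (smul_eq_zero.mp hst).resolve_right hθ

theorem min_bounds {a L : ℝ} (h0 : 0 ≤ a) (h1 : a ≤ L) : 0 ≤ min a (L - a) ∧ min a (L - a) ≤ L / 2 := by
  constructor
  · exact le_min h0 (by linarith)
  · rcases le_total a (L / 2) with h | h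
    · exact (min_le_left _ _).trans h
    · exact (min_le_right _ _).trans (by linarith)

theorem bounds (h : EMet δ Λ) (x y : V) (hx : x ≠ 0) (hy : y ≠ 0) : 0 ≤ δ x y ∧ δ x y ≤ Λ / 2 := by
  by_cases hli : LinearIndependent ℝ ![x, y]
  · obtain ⟨l, -, hmono, l0, lpi, hl⟩ := h.line x y hli
    have hpi := Real.pi_pos
    have m0 : (0 : ℝ) ∈ Icc 0 Real.pi := ⟨le_rfl, hpi.le⟩
    have mh : Real.pi / 2 ∈ Icc 0 Real.pi := ⟨by linarith, by linarith⟩
    have mpi : Real.pi ∈ Icc 0 Real.pi := ⟨hpi.le, le_rfl⟩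
    have h1 := hl 0 m0 _ mh
    have h2 := hmono.monotoneOn m0 mh (by linarith)
    have h3 := hmono.monotoneOn mh mpi (by linarith)
    rw [l0] at h2 h1
    rw [lpi] at h3
    simp only [Real.cos_zero, Real.sin_zero, Real.cos_pi_div_two, Real.sin_pi_div_two, one_smul,
      zero_smul, add_zero, zero_add, zero_sub, abs_neg, abs_of_nonneg h2] at h1
    rw [h1]
    exact min_bounds h2 h3
  · rw [(h.zero x y hx hy).mpr hli]
    have := h.lam
    constructor <;> linarith

theorem exists_ker (φ : V →ₗ[ℝ] ℝ) : ∃ Y : V, ‖Y‖ = 1 ∧ φ Y = 0 := by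
  have h1 : ¬ Function.Injective φ := by
    intro hinj
    have := LinearMap.finrank_le_finrank_of_injective hinj
    simp at this
  have h2 : LinearMap.ker φ ≠ ⊥ := by
    rwa [Ne, LinearMap.ker_eq_bot]
  obtain ⟨e, he, hne⟩ := Submodule.exists_mem_ne_zero_of_ne_bot h2
  have hn : ‖e‖ ≠ 0 := norm_ne_zero_iff.mpr hne
  refine ⟨‖e‖⁻¹ • e, ?_, ?_⟩
  · rw [norm_smul, norm_inv, norm_norm, inv_mul_cancel₀ hn]
  · rw [map_smul, LinearMap.mem_ker.mp he, smul_zero]

theorem exists_min (h : EMet δ Λ) (φ : V →ₗ[ℝ] ℝ) (w : V) (hw : w ≠ 0) :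
    ∃ Y : V, Y ≠ 0 ∧ φ Y = 0 ∧ ∀ Z : V, Z ≠ 0 → φ Z = 0 → δ w Y ≤ δ w Z := by
  have hφc : Continuous φ := φ.continuous_of_finiteDimensional
  have hK : IsCompact (Metric.sphere (0 : V) 1 ∩ {Y | φ Y = 0}) :=
    (isCompact_sphere 0 1).inter_right (isClosed_eq hφc continuous_const)
  have hne : (Metric.sphere (0 : V) 1 ∩ {Y | φ Y = 0}).Nonempty := by
    obtain ⟨Y, hY, hφY⟩ := exists_ker φ
    exact ⟨Y, by simpa using hY, hφY⟩
  have hc : ContinuousOn (fun Y => δ w Y) (Metric.sphere (0 : V) 1 ∩ {Y | φ Y = 0}) := by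
    intro Y hY
    have hY0 : Y ≠ 0 := ne_of_norm (by simpa using hY.1)
    have h1 := contAt h hw hY0
    have h2 : ContinuousAt (fun Y : V => (w, Y)) Y := by fun_prop
    exact (ContinuousAt.comp (f := fun Y : V => (w, Y)) h1 h2).continuousWithinAt
  obtain ⟨Y, hYK, hmin⟩ := hK.exists_isMinOn hne hc
  have hY0 : Y ≠ 0 := ne_of_norm (by simpa using hYK.1)
  refine ⟨Y, hY0, hYK.2, fun Z hZ hφZ => ?_⟩
  have hn : ‖Z‖ ≠ 0 := norm_ne_zero_iff.mpr hZ
  have hZK : ‖Z‖⁻¹ • Z ∈ Metric.sphere (0 : V) 1 ∩ {Y | φ Y = 0} := by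
    refine ⟨?_, ?_⟩
    · simp [norm_smul, hn]
    · show φ (‖Z‖⁻¹ • Z) = 0
      rw [map_smul, hφZ, smul_zero]
  have := hmin hZK
  simp only [mem_setOf_eq] at this
  rwa [hom2 h hw hZ (inv_ne_zero hn)] at this

theorem hF_eq (h : EMet δ Λ) (φ : V →ₗ[ℝ] ℝ) (w Y : V) (hY : Y ≠ 0) (hφY : φ Y = 0)
    (hmin : ∀ Z : V, Z ≠ 0 → φ Z = 0 → δ w Y ≤ δ w Z) : hF δ φ w = δ w Y := by
  unfold hF
  apply IsLeast.csInf_eq
  refine ⟨⟨Y, ⟨hY, hφY⟩, rfl⟩, ?_⟩
  rintro _ ⟨Z, ⟨hZ, hφZ⟩, rfl⟩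
  exact hmin Z hZ hφZ

theorem hF_exists (h : EMet δ Λ) (φ : V →ₗ[ℝ] ℝ) (w : V) (hw : w ≠ 0) :
    ∃ Y : V, Y ≠ 0 ∧ φ Y = 0 ∧ hF δ φ w = δ w Y := by
  obtain ⟨Y, hY, hφY, hmin⟩ := exists_min h φ w hw
  exact ⟨Y, hY, hφY, hF_eq h φ w Y hY hφY hmin⟩

theorem hF_le (h : EMet δ Λ) (φ : V →ₗ[ℝ] ℝ) (w Y : V) (hw : w ≠ 0) (hY : Y ≠ 0) (hφY : φ Y = 0) :
    hF δ φ w ≤ δ w Y := by
  obtain ⟨Z, hZ, hφZ, hmin⟩ := exists_min h φ w hw
  rw [hF_eq h φ w Z hZ hφZ hmin]
  exact hmin Y hY hφY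

theorem hF_lip (h : EMet δ Λ) (φ : V →ₗ[ℝ] ℝ) (w w' : V) (hw : w ≠ 0) (hw' : w' ≠ 0) :
    |hF δ φ w' - hF δ φ w| ≤ δ w' w := by
  obtain ⟨Y, hY, hφY, hY2⟩ := hF_exists h φ w hw
  obtain ⟨Y', hY', hφY', hY2'⟩ := hF_exists h φ w' hw'
  have h1 := hF_le h φ w' Y hw' hY hφY
  have h2 := hF_le h φ w Y' hw hY' hφY'
  have h3 := h.tri w' w Y hw' hw hY
  have h4 := h.tri w w' Y' hw hw' hY'
  rw [h.symm w w' hw hw'] at h4
  rw [abs_le]
  constructor <;> linarith

theorem hF_contAt (h : EMet δ Λ) (φ : V →ₗ[ℝ] ℝ) (w : V) (hw : w ≠ 0) : ContinuousAt (hF δ φ) w := by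
  have h1 : Tendsto (fun w' => δ w' w) (𝓝 w) (𝓝 0) := by
    have h2 := contAt h hw hw
    have h3 : ContinuousAt (fun Y : V => (Y, w)) w := by fun_prop
    have h4 := (ContinuousAt.comp (f := fun Y : V => (Y, w)) h2 h3).tendsto
    simp only [Function.comp_def, self_zero h hw] at h4
    exact h4
  have h2 : ∀ᶠ w' in 𝓝 w, |hF δ φ w' - hF δ φ w| ≤ δ w' w := by
    filter_upwards [isOpen_ne.mem_nhds hw] with w' hw'
    exact hF_lip h φ w w' hw hw'
  have h3 : Tendsto (fun w' => |hF δ φ w' - hF δ φ w|) (𝓝 w) (𝓝 0) :=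
    tendsto_of_tendsto_of_tendsto_of_le_of_le' tendsto_const_nhds h1
      (Eventually.of_forall fun _ => abs_nonneg _) h2
  have h4 : Tendsto (fun w' => hF δ φ w' - hF δ φ w) (𝓝 w) (𝓝 0) :=
    (tendsto_zero_iff_abs_tendsto_zero _).mpr h3
  have h5 := h4.add_const (hF δ φ w)
  simp only [sub_add_cancel, zero_add] at h5
  exact h5

end

theorem T_le : S_le := by
  intro δ Λ h
  refine ⟨bounds h, ?_, ?_, ?_, ?_⟩
  · intro φ _ w hw
    exact hF_exists h φ w hw
  · intro φ _ w Y hw hY hφY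
    exact hF_le h φ w Y hw hY hφY
  · intro φ _ w hw
    exact (hF_contAt h φ w hw).continuousWithinAt
  · intro φ _ w hw
    have hw0 : w ≠ 0 := by intro h0; rw [h0, map_zero] at hw; exact hw rfl
    obtain ⟨Y, hY, hφY, hY2⟩ := hF_exists h φ w hw0
    rw [hY2]
    have h1 := (bounds h w Y hw0 hY).1
    have h2 : δ w Y ≠ 0 := by
      rw [Ne, h.zero w Y hw0 hY, not_not]
      exact indep hw hY hφY
    exact lt_of_le_of_ne h1 (Ne.symm h2)

section

variable {δ : V → V → ℝ} {Λ : ℝ}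

/-- The parametrisation of a line. -/
structure Ln (δ : V → V → ℝ) (Λ : ℝ) (x y : V) (l : ℝ → ℝ) : Prop where
  cont : ContinuousOn l (Icc 0 Real.pi)
  mono : StrictMonoOn l (Icc 0 Real.pi)
  zero : l 0 = 0
  pi : l Real.pi = Λ
  dist : ∀ s ∈ Icc 0 Real.pi, ∀ t ∈ Icc 0 Real.pi,
      δ (Real.cos s • x + Real.sin s • y) (Real.cos t • x + Real.sin t • y) =
        min |l s - l t| (Λ - |l s - l t|)

theorem ln_exists (h : EMet δ Λ) {x y : V} (hli : LinearIndependent ℝ ![x, y]) :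
    ∃ l, Ln δ Λ x y l := by
  obtain ⟨l, h1, h2, h3, h4, h5⟩ := h.line x y hli
  exact ⟨l, h1, h2, h3, h4, h5⟩

theorem comb_ne {x y : V} (hli : LinearIndependent ℝ ![x, y]) {a b : ℝ} (hab : a ≠ 0 ∨ b ≠ 0) :
    a • x + b • y ≠ 0 := by
  intro h0
  rw [LinearIndependent.pair_iff] at hli
  obtain ⟨h1, h2⟩ := hli a b h0
  rcases hab with h | h
  · exact h h1
  · exact h h2

theorem cs_ne {x y : V} (hli : LinearIndependent ℝ ![x, y]) (t : ℝ) :
    Real.cos t • x + Real.sin t • y ≠ 0 := by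
  apply comb_ne hli
  by_contra hn
  push Not at hn
  have := Real.cos_sq_add_sin_sq t
  rw [hn.1, hn.2] at this
  norm_num at this

theorem ln_neg (h : EMet δ Λ) {x y : V} (hli : LinearIndependent ℝ ![x, y]) {l : ℝ → ℝ}
    (hl : Ln δ Λ x y l) : Ln δ Λ x (-y) (fun t => Λ - l (Real.pi - t)) := by
  have hmap : ∀ t ∈ Icc 0 Real.pi, Real.pi - t ∈ Icc 0 Real.pi := by
    intro t ht
    exact ⟨by linarith [ht.2], by linarith [ht.1]⟩
  refine ⟨?_, ?_, ?_, ?_, ?_⟩
  · apply continuousOn_const.sub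
    apply hl.cont.comp (by fun_prop)
    intro t ht
    exact hmap t ht
  · intro s hs t ht hst
    have := hl.mono (hmap t ht) (hmap s hs) (by linarith)
    simp only
    linarith
  · simp [hl.pi]
  · simp [hl.zero]
  · intro s hs t ht
    have e1 : ∀ t : ℝ, Real.cos t • x + Real.sin t • (-y) =
        (-1 : ℝ) • (Real.cos (Real.pi - t) • x + Real.sin (Real.pi - t) • y) := by
      intro t
      rw [Real.cos_pi_sub, Real.sin_pi_sub, smul_add, smul_smul, smul_smul, smul_neg]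
      simp
    rw [e1 s, e1 t, h.hom _ _ (cs_ne hli _) (smul_ne_zero (by norm_num) (cs_ne hli _)) _ (by norm_num),
      hom2 h (cs_ne hli _) (cs_ne hli _) (by norm_num : (-1 : ℝ) ≠ 0),
      hl.dist _ (hmap s hs) _ (hmap t ht)]
    have e2 : |Λ - l (Real.pi - s) - (Λ - l (Real.pi - t))| = |l (Real.pi - s) - l (Real.pi - t)| := by
      rw [abs_sub_comm]; congr 1; ring
    rw [e2]

/-- The ray condition. -/
theorem ray_iff (h : EMet δ Λ) {x y : V} (hli : LinearIndependent ℝ ![x, y]) {l : ℝ → ℝ}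
    (hl : Ln δ Λ x y l) :
    (∀ r : ℝ, 0 ≤ r → δ x (x + r • y) + δ (x + r • y) y = δ x y) ↔ l (Real.pi / 2) ≤ Λ / 2 := by
  have hpi := Real.pi_pos
  have hΛ := h.lam
  have m0 : (0 : ℝ) ∈ Icc 0 Real.pi := ⟨le_rfl, hpi.le⟩
  have mh : Real.pi / 2 ∈ Icc 0 Real.pi := ⟨by linarith, by linarith⟩
  have mpi : Real.pi ∈ Icc 0 Real.pi := ⟨hpi.le, le_rfl⟩
  have hx0 : x ≠ 0 := by simpa using comb_ne hli (a := 1) (b := 0) (Or.inl one_ne_zero)
  have hy0 : y ≠ 0 := by simpa using comb_ne hli (a := 0) (b := 1) (Or.inr one_ne_zero)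
  have c0 : Real.cos 0 • x + Real.sin 0 • y = x := by simp
  have ch : Real.cos (Real.pi / 2) • x + Real.sin (Real.pi / 2) • y = y := by simp
  have lh0 : 0 ≤ l (Real.pi / 2) := by
    have := hl.mono.monotoneOn m0 mh (by linarith)
    rwa [hl.zero] at this
  have lh1 : l (Real.pi / 2) ≤ Λ := by
    have := hl.mono.monotoneOn mh mpi (by linarith)
    rwa [hl.pi] at this
  have dxy : δ x y = min (l (Real.pi / 2)) (Λ - l (Real.pi / 2)) := by
    have := hl.dist 0 m0 _ mh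
    rw [c0, ch, hl.zero, zero_sub, abs_neg, abs_of_nonneg lh0] at this
    exact this
  have dx : ∀ t ∈ Icc 0 (Real.pi / 2), δ x (Real.cos t • x + Real.sin t • y) = min (l t) (Λ - l t) := by
    intro t ht
    have mt : t ∈ Icc 0 Real.pi := ⟨ht.1, by linarith [ht.2]⟩
    have := hl.dist 0 m0 t mt
    have h1 : 0 ≤ l t := by
      have := hl.mono.monotoneOn m0 mt ht.1
      rwa [hl.zero] at this
    rw [c0, hl.zero, zero_sub, abs_neg, abs_of_nonneg h1] at this
    exact this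
  constructor
  · intro hr
    by_contra hn
    push Not at hn
    have hcont : ContinuousOn l (Icc 0 (Real.pi / 2)) :=
      hl.cont.mono (Icc_subset_Icc le_rfl (by linarith))
    have hIVT := intermediate_value_Icc (by linarith : (0 : ℝ) ≤ Real.pi / 2) hcont
    rw [hl.zero] at hIVT
    obtain ⟨t, ht, hlt⟩ := hIVT (⟨by linarith, hn.le⟩ : Λ / 2 ∈ Icc 0 (l (Real.pi / 2)))
    have htlt : t < Real.pi / 2 := by
      rcases eq_or_lt_of_le ht.2 with h1 | h1
      · rw [h1] at hlt; linarith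
      · exact h1
    have hcos : 0 < Real.cos t := Real.cos_pos_of_mem_Ioo ⟨by linarith [ht.1], htlt⟩
    have hsin : 0 ≤ Real.sin t := Real.sin_nonneg_of_nonneg_of_le_pi ht.1 (by linarith)
    have h1 := hr (Real.sin t / Real.cos t) (by positivity)
    have hne : x + (Real.sin t / Real.cos t) • y ≠ 0 := by
      have := comb_ne hli (a := 1) (b := Real.sin t / Real.cos t) (Or.inl one_ne_zero)
      rwa [one_smul] at this
    have e1 : Real.cos t • x + Real.sin t • y = Real.cos t • (x + (Real.sin t / Real.cos t) • y) := by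
      rw [smul_add, smul_smul, mul_div_cancel₀ _ hcos.ne']
    have h2 := dx t ht
    rw [e1, hom2 h hx0 hne hcos.ne', hlt, min_eq_left (by linarith)] at h2
    have h3 := (bounds h _ y hne hy0).1
    rw [h2, dxy] at h1
    have h4 := min_le_right (l (Real.pi / 2)) (Λ - l (Real.pi / 2))
    linarith
  · intro hle r hr
    set t := Real.arctan r with ht
    have ht0 : 0 ≤ t := Real.arctan_nonneg.mpr hr
    have htlt : t < Real.pi / 2 := Real.arctan_lt_pi_div_two r
    have hcos : 0 < Real.cos t := Real.cos_arctan_pos r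
    have htan : Real.sin t = Real.cos t * r := by
      have : Real.tan t = r := Real.tan_arctan r
      rw [Real.tan_eq_sin_div_cos, div_eq_iff hcos.ne'] at this
      rw [this]; ring
    have mt : t ∈ Icc 0 (Real.pi / 2) := ⟨ht0, htlt.le⟩
    have mt' : t ∈ Icc 0 Real.pi := ⟨ht0, by linarith⟩
    have hne : x + r • y ≠ 0 := by
      have := comb_ne hli (a := 1) (b := r) (Or.inl one_ne_zero)
      rwa [one_smul] at this
    have e1 : Real.cos t • x + Real.sin t • y = Real.cos t • (x + r • y) := by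
      rw [smul_add, smul_smul, htan]
    have l1 : 0 ≤ l t := by
      have := hl.mono.monotoneOn m0 mt' ht0
      rwa [hl.zero] at this
    have l2 : l t ≤ l (Real.pi / 2) := hl.mono.monotoneOn mt' mh htlt.le
    have h2 := dx t mt
    rw [e1, hom2 h hx0 hne hcos.ne', min_eq_left (by linarith)] at h2
    have h3 := hl.dist t mt' _ mh
    rw [e1, ch, h.hom _ _ hne hy0 _ hcos.ne', abs_sub_comm, abs_of_nonneg (by linarith),
      min_eq_left (by linarith)] at h3
    rw [h2, h3, dxy, min_eq_left (by linarith)]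
    ring

theorem hF_smul (h : EMet δ Λ) (φ : V →ₗ[ℝ] ℝ) {w : V} (hw : w ≠ 0) {c : ℝ} (hc : c ≠ 0) :
    hF δ φ (c • w) = hF δ φ w := by
  unfold hF
  congr 1
  apply image_congr
  rintro Y ⟨hY, -⟩
  exact h.hom w Y hw hY c hc

theorem foot_smul (h : EMet δ Λ) {φ : V →ₗ[ℝ] ℝ} {w θ : V} (hw : φ w ≠ 0) (hf : Foot δ φ w θ)
    {c d : ℝ} (hcd : 0 < c * d) : Foot δ φ (c • w) (d • θ) := by
  obtain ⟨hθ, hφθ, h1, h2⟩ := hf
  have hc : c ≠ 0 := by intro h0; rw [h0, zero_mul] at hcd; exact lt_irrefl _ hcd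
  have hd : d ≠ 0 := by intro h0; rw [h0, mul_zero] at hcd; exact lt_irrefl _ hcd
  have hw0 : w ≠ 0 := by intro h0; rw [h0, map_zero] at hw; exact hw rfl
  have hli := indep hw hθ hφθ
  refine ⟨smul_ne_zero hd hθ, by rw [map_smul, hφθ, smul_zero], ?_, ?_⟩
  · rw [h.hom w _ hw0 (smul_ne_zero hd hθ) c hc, hom2 h hw0 hθ hd, h1, hF_smul h φ hw0 hc]
  · intro r hr
    have hr' : 0 ≤ r * d / c := by
      have : r * d / c = r * (c * d) / (c * c) := by field_simp
      rw [this]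
      exact div_nonneg (mul_nonneg hr hcd.le) (mul_self_nonneg c)
    have h3 := h2 (r * d / c) hr'
    have hne : w + (r * d / c) • θ ≠ 0 := by
      have := comb_ne hli (a := 1) (b := r * d / c) (Or.inl one_ne_zero)
      rwa [one_smul] at this
    have e1 : c • w + r • d • θ = c • (w + (r * d / c) • θ) := by
      rw [smul_add, smul_smul, smul_smul, mul_div_cancel₀ _ hc]
    rw [e1, h.hom w _ hw0 (smul_ne_zero hc hne) c hc, hom2 h hw0 hne hc,
      h.hom _ _ hne (smul_ne_zero hd hθ) c hc, hom2 h hne hθ hd,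
      h.hom w _ hw0 (smul_ne_zero hd hθ) c hc, hom2 h hw0 hθ hd]
    exact h3

end

theorem foot' : S_foot := by
  intro δ Λ h φ hφ
  refine ⟨?_, ?_, ?_, ?_, ?_⟩
  · intro w hw
    have hw0 : w ≠ 0 := by intro h0; rw [h0, map_zero] at hw; exact hw rfl
    obtain ⟨Y, hY, hφY, hY2⟩ := hF_exists h φ w hw0
    have hli := indep hw hY hφY
    obtain ⟨l, hl⟩ := ln_exists h hli
    rcases le_total (l (Real.pi / 2)) (Λ / 2) with h1 | h1
    · exact ⟨Y, hY, hφY, hY2.symm, (ray_iff h hli hl).mpr h1⟩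
    · have hY' : -Y ≠ 0 := neg_ne_zero.mpr hY
      have hφY' : φ (-Y) = 0 := by rw [map_neg, hφY, neg_zero]
      have hli' := indep hw hY' hφY'
      have hl' := ln_neg h hli hl
      refine ⟨-Y, hY', hφY', ?_, (ray_iff h hli' hl').mpr ?_⟩
      · rw [hY2, ← neg_one_smul ℝ Y, hom2 h hw0 hY (by norm_num)]
      · have : Real.pi - Real.pi / 2 = Real.pi / 2 := by ring
        simp only [this]
        linarith
  · intro w θ hw hf hf'
    have hw0 : w ≠ 0 := by intro h0; rw [h0, map_zero] at hw; exact hw rfl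
    have hli := indep hw hf.1 hf.2.1
    have hli' := indep hw hf'.1 hf'.2.1
    obtain ⟨l, hl⟩ := ln_exists h hli
    have hl' := ln_neg h hli hl
    have h1 := (ray_iff h hli hl).mp hf.2.2.2
    have h2 := (ray_iff h hli' hl').mp hf'.2.2.2
    have h3 : Real.pi - Real.pi / 2 = Real.pi / 2 := by ring
    simp only [h3] at h2
    have hpi := Real.pi_pos
    have h4 := hl.dist 0 ⟨le_rfl, hpi.le⟩ (Real.pi / 2) ⟨by linarith, by linarith⟩
    have h5 : l (Real.pi / 2) = Λ / 2 := by linarith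
    simp only [Real.cos_zero, Real.sin_zero, Real.cos_pi_div_two, Real.sin_pi_div_two, one_smul,
      zero_smul, add_zero, zero_add, hl.zero, h5, zero_sub, abs_neg] at h4
    rw [abs_of_nonneg (by linarith [h.lam])] at h4
    rw [← hf.2.2.1, h4]
    have : Λ - Λ / 2 = Λ / 2 := by ring
    rw [this, min_self]
  · intro w θ hw hf c hc
    refine ⟨?_, ?_⟩
    · have := foot_smul h hw hf (c := 1) (d := c) (by linarith)
      rwa [one_smul] at this
    · have := foot_smul h hw hf (c := c) (d := 1) (by linarith)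
      rwa [one_smul] at this
  · intro w θ hw hf
    have := foot_smul h hw hf (c := -1) (d := -1) (by norm_num)
    rwa [neg_one_smul, neg_one_smul] at this
  · intro w θ w' θ' hw hθ hw' hθ' hf
    have hφc : Continuous φ := φ.continuous_of_finiteDimensional
    have hw0 : w' ≠ 0 := by intro h0; rw [h0, map_zero] at hw'; exact hw' rfl
    have t1 : Tendsto (fun k => δ (w k) (θ k)) atTop (𝓝 (δ w' θ')) :=
      (contAt h hw0 hθ').tendsto.comp (hw.prodMk_nhds hθ)
    refine ⟨hθ', ?_, ?_, ?_⟩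
    · have h1 : Tendsto (fun k => φ (θ k)) atTop (𝓝 (φ θ')) := (hφc.tendsto θ').comp hθ
      have h2 : (fun k => φ (θ k)) = fun _ => 0 := funext fun k => (hf k).2.1
      rw [h2] at h1
      exact tendsto_nhds_unique h1 tendsto_const_nhds |>.symm ▸ rfl
    · have h1 : Tendsto (fun k => hF δ φ (w k)) atTop (𝓝 (hF δ φ w')) :=
        (hF_contAt h φ w' hw0).tendsto.comp hw
      have h2 : (fun k => δ (w k) (θ k)) = fun k => hF δ φ (w k) := funext fun k => (hf k).2.2.1
      rw [h2] at t1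
      exact tendsto_nhds_unique t1 h1
    · intro r hr
      have hne : w' + r • θ' ≠ 0 := by
        intro h0
        apply hw'
        have h1 : Tendsto (fun k => φ (θ k)) atTop (𝓝 (φ θ')) := (hφc.tendsto θ').comp hθ
        have h2 : (fun k => φ (θ k)) = fun _ => 0 := funext fun k => (hf k).2.1
        rw [h2] at h1
        have h3 : φ θ' = 0 := (tendsto_nhds_unique h1 tendsto_const_nhds)
        have h4 := congrArg φ h0
        rw [map_add, map_smul, h3, smul_zero, add_zero, map_zero] at h4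
        exact h4
      have tm : Tendsto (fun k => w k + r • θ k) atTop (𝓝 (w' + r • θ')) := hw.add (hθ.const_smul r)
      have t2 : Tendsto (fun k => δ (w k) (w k + r • θ k)) atTop (𝓝 (δ w' (w' + r • θ'))) :=
        (contAt h hw0 hne).tendsto.comp (hw.prodMk_nhds tm)
      have t3 : Tendsto (fun k => δ (w k + r • θ k) (θ k)) atTop (𝓝 (δ (w' + r • θ') θ')) :=
        (contAt h hne hθ').tendsto.comp (tm.prodMk_nhds hθ)
      have t4 := t2.add t3
      have h2 : (fun k => δ (w k) (w k + r • θ k) + δ (w k + r • θ k) (θ k)) = fun k => δ (w k) (θ k) :=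
        funext fun k => (hf k).2.2.2 r hr
      rw [h2] at t4
      exact tendsto_nhds_unique t4 t1

theorem T_foot (_ : S_le) : S_foot := foot'

end Pool.Agent.W356.PMB
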