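import Pool.Agent.W553.PM.StmB

set_option autoImplicit false

/-!
# The metric with the standard polarity is the standard elliptic metric
-/

namespace Pool.Agent.W356.PMB

open Pool.Agent.W553.PMB Set Filter Topology

section

variable {δ : V → V → ℝ} {Λ : ℝ}

theorem ne_of_norm {x : V} (hx : ‖x‖ = 1) : x ≠ 0 := by
  intro h; rw [h, norm_zero] at hx; exact zero_ne_one hx

theorem hom2 (h : EMet δ Λ) {x y : V} (hx : x ≠ 0) (hy : y ≠ 0) {c : ℝ} (hc : c ≠ 0) :
    δ x (c • y) = δ x y := by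
  rw [h.symm x (c • y) hx (smul_ne_zero hc hy), h.hom y x hy hx c hc, h.symm y x hy hx]

theorem inner_pair {x θ : V} (hx : ‖x‖ = 1) (hθ : ‖θ‖ = 1) (hxθ : inner ℝ x θ = 0) (a b c d : ℝ) :
    inner ℝ (a • x + b • θ) (c • x + d • θ) = a * c + b * d := by
  have h1 : inner ℝ x x = (1 : ℝ) := by rw [real_inner_self_eq_norm_sq, hx]; norm_num
  have h2 : inner ℝ θ θ = (1 : ℝ) := by rw [real_inner_self_eq_norm_sq, hθ]; norm_num
  have h3 : inner ℝ θ x = (0 : ℝ) := by rw [real_inner_comm]; exact hxθ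
  simp only [inner_add_left, inner_add_right, real_inner_smul_left, real_inner_smul_right, h1, h2, h3, hxθ]
  ring

theorem norm_pair {x θ : V} (hx : ‖x‖ = 1) (hθ : ‖θ‖ = 1) (hxθ : inner ℝ x θ = 0) (a b : ℝ) :
    ‖a • x + b • θ‖ ^ 2 = a ^ 2 + b ^ 2 := by
  rw [← real_inner_self_eq_norm_sq, inner_pair hx hθ hxθ]; ring

theorem norm_cs {x θ : V} (hx : ‖x‖ = 1) (hθ : ‖θ‖ = 1) (hxθ : inner ℝ x θ = 0) (t : ℝ) :
    ‖Real.cos t • x + Real.sin t • θ‖ = 1 := by
  have h := norm_pair hx hθ hxθ (Real.cos t) (Real.sin t)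
  rw [Real.cos_sq_add_sin_sq] at h
  have h0 := norm_nonneg (Real.cos t • x + Real.sin t • θ)
  nlinarith

theorem inner_x {x θ : V} (hx : ‖x‖ = 1) (hθ : ‖θ‖ = 1) (hxθ : inner ℝ x θ = 0) (a b : ℝ) :
    inner ℝ x (a • x + b • θ) = a := by
  have := inner_pair hx hθ hxθ 1 0 a b
  simpa using this

theorem lin_indep {x θ : V} (hx : ‖x‖ = 1) (hθ : ‖θ‖ = 1) (hxθ : inner ℝ x θ = 0) :
    LinearIndependent ℝ ![x, θ] := by
  rw [LinearIndependent.pair_iff]
  intro s t h
  have h1 := norm_pair hx hθ hxθ s t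
  rw [h, norm_zero] at h1
  constructor <;> nlinarith [sq_nonneg s, sq_nonneg t]

theorem min_half {a L : ℝ} (h : min a (L - a) = L / 2) : a = L / 2 := by
  rcases min_choice a (L - a) with h1 | h1
  · linarith
  · linarith

/-- The parametrisation of a line through orthonormal vectors. -/
theorem line_facts (h : EMet δ Λ)
    (hp : ∀ x y : V, x ≠ 0 → y ≠ 0 → (δ x y = Λ / 2 ↔ inner ℝ x y = 0))
    {x θ : V} (hx : ‖x‖ = 1) (hθ : ‖θ‖ = 1) (hxθ : inner ℝ x θ = 0) :
    ∃ l : ℝ → ℝ, StrictMonoOn l (Icc 0 Real.pi) ∧ l 0 = 0 ∧ l (Real.pi / 2) = Λ / 2 ∧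
      (∀ t ∈ Icc 0 (Real.pi / 2), δ x (Real.cos t • x + Real.sin t • θ) = l t) ∧
      (∀ t ∈ Icc 0 (Real.pi / 2), δ x ((-Real.sin t) • x + Real.cos t • θ) = Λ / 2 - l t) ∧
      ∀ s t, 0 ≤ s → 0 ≤ t → s + t ≤ Real.pi / 2 →
        δ (Real.cos s • x + Real.sin s • θ) (Real.cos (s + t) • x + Real.sin (s + t) • θ) =
          l (s + t) - l s := by
  obtain ⟨l, -, hmono, l0, lpi, hl⟩ := h.line x θ (lin_indep hx hθ hxθ)
  have hpi := Real.pi_pos
  have m0 : (0 : ℝ) ∈ Icc 0 Real.pi := ⟨le_rfl, hpi.le⟩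
  have mh : Real.pi / 2 ∈ Icc 0 Real.pi := ⟨by linarith, by linarith⟩
  have mpi : Real.pi ∈ Icc 0 Real.pi := ⟨hpi.le, le_rfl⟩
  have hx0 := ne_of_norm hx
  have hθ0 := ne_of_norm hθ
  have c0 : Real.cos 0 • x + Real.sin 0 • θ = x := by simp
  have ch : Real.cos (Real.pi / 2) • x + Real.sin (Real.pi / 2) • θ = θ := by simp
  have hcne : ∀ t, Real.cos t • x + Real.sin t • θ ≠ 0 := fun t => ne_of_norm (norm_cs hx hθ hxθ t)
  -- value at pi / 2
  have lh : l (Real.pi / 2) = Λ / 2 := by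
    have h1 := hl 0 m0 (Real.pi / 2) mh
    rw [c0, ch, (hp x θ hx0 hθ0).mpr hxθ, l0] at h1
    have h2 : 0 < l (Real.pi / 2) := by
      have := hmono m0 mh (by linarith)
      rwa [l0] at this
    rw [zero_sub, abs_neg, abs_of_pos h2] at h1
    exact min_half h1.symm
  have lle : ∀ t ∈ Icc 0 (Real.pi / 2), 0 ≤ l t ∧ l t ≤ Λ / 2 := by
    intro t ht
    have mt : t ∈ Icc 0 Real.pi := ⟨ht.1, by linarith [ht.2]⟩
    refine ⟨?_, ?_⟩
    · have := hmono.monotoneOn m0 mt ht.1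
      rwa [l0] at this
    · have := hmono.monotoneOn mt mh ht.2
      rwa [lh] at this
  refine ⟨l, hmono, l0, lh, ?_, ?_, ?_⟩
  · intro t ht
    have mt : t ∈ Icc 0 Real.pi := ⟨ht.1, by linarith [ht.2]⟩
    have h1 := hl 0 m0 t mt
    have h2 := lle t ht
    rw [c0, l0, zero_sub, abs_neg, abs_of_nonneg h2.1, min_eq_left (by linarith)] at h1
    exact h1
  · intro t ht
    have mt : t ∈ Icc 0 Real.pi := ⟨ht.1, by linarith [ht.2]⟩
    have mu : t + Real.pi / 2 ∈ Icc 0 Real.pi := ⟨by linarith [ht.1], by linarith [ht.2]⟩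
    have h2 := lle t ht
    have hu1 : Λ / 2 ≤ l (t + Real.pi / 2) := by
      rw [← lh]; exact hmono.monotoneOn mh mu (by linarith [ht.1])
    have hu2 : l (t + Real.pi / 2) ≤ Λ := by
      have := hmono.monotoneOn mu mpi mu.2
      rwa [lpi] at this
    have cu : Real.cos (t + Real.pi / 2) • x + Real.sin (t + Real.pi / 2) • θ =
        (-Real.sin t) • x + Real.cos t • θ := by
      rw [Real.cos_add_pi_div_two, Real.sin_add_pi_div_two]
    have h3 := hl 0 m0 _ mu
    rw [c0, l0, zero_sub, abs_neg, abs_of_nonneg (by linarith [h2.1]), cu, min_eq_right (by linarith)] at h3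
    have h4 := hl t mt _ mu
    have hne : (-Real.sin t) • x + Real.cos t • θ ≠ 0 := by rw [← cu]; exact hcne _
    rw [cu, (hp _ _ (hcne t) hne).mpr (by rw [inner_pair hx hθ hxθ]; ring), abs_sub_comm,
      abs_of_nonneg (by linarith)] at h4
    have h5 := min_half h4.symm
    rw [h3]; linarith
  · intro s t hs ht hst
    have ms : s ∈ Icc 0 Real.pi := ⟨hs, by linarith⟩
    have mst : s + t ∈ Icc 0 Real.pi := ⟨by linarith, by linarith⟩
    have h1 := hl s ms (s + t) mst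
    have h2 := hmono.monotoneOn ms mst (by linarith)
    have h3 := lle (s + t) ⟨by linarith, hst⟩
    have h4 := lle s ⟨hs, by linarith⟩
    rw [abs_sub_comm, abs_of_nonneg (by linarith), min_eq_left (by linarith)] at h1
    exact h1

/-- The one step estimate. -/
theorem step (h : EMet δ Λ)
    (hp : ∀ x y : V, x ≠ 0 → y ≠ 0 → (δ x y = Λ / 2 ↔ inner ℝ x y = 0))
    {x θ θ' : V} (hx : ‖x‖ = 1) (hθ : ‖θ‖ = 1) (hθ' : ‖θ'‖ = 1) (hxθ : inner ℝ x θ = 0)
    (hxθ' : inner ℝ x θ' = 0) (κ : ℝ) (hκ : inner ℝ θ θ' = κ) (hκ0 : 0 < κ) (τ : ℝ) (hτ : 0 < τ) :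
    δ x (x + τ • θ) ≤ δ x (x + (τ / κ) • θ') := by
  obtain ⟨l, -, l0, lh, h1, h2, -⟩ := line_facts h hp hx hθ hxθ
  set t := Real.arctan τ with ht
  have htpos : 0 < t := Real.arctan_pos.mpr hτ
  have htlt : t < Real.pi / 2 := Real.arctan_lt_pi_div_two τ
  have hcos : 0 < Real.cos t := Real.cos_arctan_pos τ
  have htan : Real.sin t = Real.cos t * τ := by
    have : Real.tan t = τ := Real.tan_arctan τ
    rw [Real.tan_eq_sin_div_cos, div_eq_iff hcos.ne'] at this
    rw [this]; ring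
  have hx0 := ne_of_norm hx
  have mt : t ∈ Icc 0 (Real.pi / 2) := ⟨htpos.le, htlt.le⟩
  have ne1 : x + τ • θ ≠ 0 := by
    intro h0
    have := norm_pair hx hθ hxθ 1 τ
    rw [one_smul, h0, norm_zero] at this
    nlinarith
  have nP : (-τ) • x + (1 : ℝ) • θ ≠ 0 := by
    intro h0
    have := norm_pair hx hθ hxθ (-τ) 1
    rw [h0, norm_zero] at this
    nlinarith
  have e1 : δ x (x + τ • θ) = l t := by
    rw [← h1 t mt, htan, mul_smul, ← smul_add, hom2 h hx0 ne1 hcos.ne']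
  have e2 : δ x ((-τ) • x + (1 : ℝ) • θ) = Λ / 2 - l t := by
    rw [← h2 t mt, htan, ← hom2 h hx0 nP hcos.ne', smul_add, smul_smul, smul_smul]
    congr 3 <;> ring
  set Z := x + (τ / κ) • θ' with hZ
  have nZ : Z ≠ 0 := by
    intro h0
    have := norm_pair hx hθ' hxθ' 1 (τ / κ)
    rw [one_smul, ← hZ, h0, norm_zero] at this
    nlinarith [sq_nonneg (τ / κ)]
  have hPZ : inner ℝ ((-τ) • x + (1 : ℝ) • θ) Z = 0 := by
    have i1 : inner ℝ x x = (1 : ℝ) := by rw [real_inner_self_eq_norm_sq, hx]; norm_num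
    have i3 : inner ℝ θ x = (0 : ℝ) := by rw [real_inner_comm]; exact hxθ
    rw [hZ]
    simp only [inner_add_left, inner_add_right, real_inner_smul_left, real_inner_smul_right, i1, i3,
      hxθ', hκ]
    field_simp
    ring
  have e3 : δ ((-τ) • x + (1 : ℝ) • θ) Z = Λ / 2 := (hp _ _ nP nZ).mpr hPZ
  have e4 := h.tri ((-τ) • x + (1 : ℝ) • θ) x Z nP hx0 nZ
  rw [h.symm _ x nP hx0] at e4
  rw [e1]
  linarith

/-- Any orthonormal pair extends to an orthonormal basis. -/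
theorem onb {x θ : V} (hx : ‖x‖ = 1) (hθ : ‖θ‖ = 1) (hxθ : inner ℝ x θ = 0) :
    ∃ e : V, ‖e‖ = 1 ∧ inner ℝ x e = 0 ∧ inner ℝ θ e = 0 ∧
      ∀ v : V, v = inner ℝ x v • x + inner ℝ θ v • θ + inner ℝ e v • e := by
  have hon : Orthonormal ℝ (({0, 1} : Set (Fin 3)).domRestrict ![x, θ, 0]) := by
    rw [orthonormal_iff_ite]
    rintro ⟨i, hi⟩ ⟨j, hj⟩
    have i1 : inner ℝ x x = (1 : ℝ) := by rw [real_inner_self_eq_norm_sq, hx]; norm_num
    have i2 : inner ℝ θ θ = (1 : ℝ) := by rw [real_inner_self_eq_norm_sq, hθ]; norm_num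
    have i3 : inner ℝ θ x = (0 : ℝ) := by rw [real_inner_comm]; exact hxθ
    simp only [mem_insert_iff, mem_singleton_iff] at hi hj
    rcases hi with hi | hi <;> rcases hj with hj | hj <;> subst hi <;> subst hj <;>
      simp [Set.domRestrict, i3, hxθ, hx, hθ]
  obtain ⟨b, hb⟩ := hon.exists_orthonormalBasis_extension_of_card_eq (by simp)
  have b0 : b 0 = x := by simpa using hb 0 (by simp)
  have b1 : b 1 = θ := by simpa using hb 1 (by simp)
  refine ⟨b 2, b.norm_eq_one 2, ?_, ?_, fun v => ?_⟩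
  · rw [← b0]; exact b.inner_eq_zero (by decide)
  · rw [← b1]; exact b.inner_eq_zero (by decide)
  · have := b.sum_repr' v
    rw [Fin.sum_univ_three, b0, b1] at this
    exact this.symm

theorem cos_pow_tendsto (ψ : ℝ) : Tendsto (fun N : ℕ => Real.cos (ψ / (N + 1 : ℕ)) ^ (N + 1)) atTop (𝓝 1) := by
  have h1 : ∀ᶠ N : ℕ in atTop, 1 - ψ ^ 2 / 2 / ((N : ℝ) + 1) ≤ Real.cos (ψ / (N + 1 : ℕ)) ^ (N + 1) := by
    obtain ⟨M, hM⟩ := exists_nat_ge |ψ|
    filter_upwards [eventually_ge_atTop M] with N hN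
    have hN1 : (0 : ℝ) < (N : ℝ) + 1 := by positivity
    have hψ : |ψ| ≤ (N : ℝ) + 1 := by
      have : (M : ℝ) ≤ N := by exact_mod_cast hN
      linarith
    have hsq : (ψ / ((N + 1 : ℕ) : ℝ)) ^ 2 ≤ 1 := by
      have : |ψ / ((N + 1 : ℕ) : ℝ)| ≤ 1 := by
        rw [abs_div]
        push_cast
        rw [abs_of_pos hN1, div_le_one hN1]
        exact hψ
      have h2 := abs_le.mp this
      nlinarith [h2.1, h2.2]
    have h2 := Real.one_sub_sq_div_two_le_cos (x := ψ / ((N + 1 : ℕ) : ℝ))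
    have h3 : 1 + ((N + 1 : ℕ) : ℝ) * (-((ψ / ((N + 1 : ℕ) : ℝ)) ^ 2 / 2)) ≤
        (1 + -((ψ / ((N + 1 : ℕ) : ℝ)) ^ 2 / 2)) ^ (N + 1) :=
      one_add_mul_le_pow (by linarith) (N + 1)
    calc 1 - ψ ^ 2 / 2 / ((N : ℝ) + 1) = 1 + ((N + 1 : ℕ) : ℝ) * (-((ψ / ((N + 1 : ℕ) : ℝ)) ^ 2 / 2)) := by
          push_cast
          field_simp
          ring
      _ ≤ _ := h3
      _ ≤ _ := by
          apply pow_le_pow_left₀ (by linarith)
          linarith
  have h2 : ∀ᶠ N : ℕ in atTop, Real.cos (ψ / (N + 1 : ℕ)) ^ (N + 1) ≤ 1 := by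
    obtain ⟨M, hM⟩ := exists_nat_ge |ψ|
    filter_upwards [eventually_ge_atTop M] with N hN
    apply pow_le_one₀ _ (Real.cos_le_one _)
    have hN1 : (0 : ℝ) < (N : ℝ) + 1 := by positivity
    have hψ : |ψ| ≤ (N : ℝ) + 1 := by
      have : (M : ℝ) ≤ N := by exact_mod_cast hN
      linarith
    have : |ψ / ((N + 1 : ℕ) : ℝ)| ≤ 1 := by
      rw [abs_div]
      push_cast
      rw [abs_of_pos hN1, div_le_one hN1]
      exact hψ
    have h3 := abs_le.mp this
    have hpi := Real.pi_gt_three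
    apply Real.cos_nonneg_of_mem_Icc
    constructor <;> linarith [h3.1, h3.2]
  have h3 : Tendsto (fun N : ℕ => 1 - ψ ^ 2 / 2 / ((N : ℝ) + 1)) atTop (𝓝 1) := by
    have : Tendsto (fun N : ℕ => ψ ^ 2 / 2 / ((N : ℝ) + 1)) atTop (𝓝 0) := by
      apply Tendsto.div_atTop tendsto_const_nhds
      exact tendsto_atTop_add_const_right _ _ tendsto_natCast_atTop_atTop
    simpa using tendsto_const_nhds.sub this
  exact tendsto_of_tendsto_of_tendsto_of_le_of_le' h3 tendsto_const_nhds h1 h2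

/-- One inequality of roundness, in the coordinate `τ = tan t`. -/
theorem round_le (h : EMet δ Λ)
    (hp : ∀ x y : V, x ≠ 0 → y ≠ 0 → (δ x y = Λ / 2 ↔ inner ℝ x y = 0))
    {x θ θ' : V} (hx : ‖x‖ = 1) (hθ : ‖θ‖ = 1) (hθ' : ‖θ'‖ = 1) (hxθ : inner ℝ x θ = 0)
    (hxθ' : inner ℝ x θ' = 0) (τ : ℝ) (hτ : 0 < τ) :
    δ x (x + τ • θ) ≤ δ x (x + τ • θ') := by
  obtain ⟨e, he, hxe, hθe, hv⟩ := onb hx hθ hxθ
  -- the angle
  have hθ'e : θ' = inner ℝ θ θ' • θ + inner ℝ e θ' • e := by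
    have := hv θ'
    rwa [hxθ', zero_smul, zero_add] at this
  have hn : inner ℝ θ θ' ^ 2 + inner ℝ e θ' ^ 2 = (1 : ℝ) := by
    have := norm_pair hθ he hθe (inner ℝ θ θ') (inner ℝ e θ')
    rw [← hθ'e, hθ'] at this
    linarith
  obtain ⟨ψ, hψ1, hψ2⟩ : ∃ ψ : ℝ, Real.cos ψ = inner ℝ θ θ' ∧ Real.sin ψ = inner ℝ e θ' := by
    set z : ℂ := ⟨inner ℝ θ θ', inner ℝ e θ'⟩ with hz
    have hz1 : ‖z‖ = 1 := by
      rw [Complex.norm_def, Complex.normSq_apply]
      simp only [hz]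
      rw [show (inner ℝ θ θ' * inner ℝ θ θ' + inner ℝ e θ' * inner ℝ e θ' : ℝ) = 1 by
        linarith [hn, sq (inner ℝ θ θ' : ℝ), sq (inner ℝ e θ' : ℝ)]]
      exact Real.sqrt_one
    have hz0 : z ≠ 0 := by intro h0; rw [h0, norm_zero] at hz1; exact zero_ne_one hz1
    refine ⟨Complex.arg z, ?_, ?_⟩
    · rw [Complex.cos_arg hz0, hz1]; simp [hz]
    · rw [Complex.sin_arg, hz1]; simp [hz]
  set Θ : ℝ → V := fun φ => Real.cos φ • θ + Real.sin φ • e with hΘ
  have Θn : ∀ φ, ‖Θ φ‖ = 1 := fun φ => norm_cs hθ he hθe φ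
  have Θx : ∀ φ, inner ℝ x (Θ φ) = 0 := by
    intro φ
    simp only [hΘ, inner_add_right, real_inner_smul_right, hxθ, hxe]; ring
  have Θi : ∀ φ φ', inner ℝ (Θ φ) (Θ φ') = Real.cos (φ' - φ) := by
    intro φ φ'
    simp only [hΘ]
    rw [inner_pair hθ he hθe, Real.cos_sub]; ring
  have key : ∀ N : ℕ, |ψ| ≤ (N : ℝ) + 1 → ∀ k : ℕ,
      δ x (x + τ • θ) ≤ δ x (x + (τ / Real.cos (ψ / (N + 1 : ℕ)) ^ k) • Θ (k * (ψ / (N + 1 : ℕ)))) := by
    intro N hN k
    set β := ψ / ((N + 1 : ℕ) : ℝ) with hβ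
    have hN1 : (0 : ℝ) < (N : ℝ) + 1 := by positivity
    have hβ1 : |β| ≤ 1 := by
      rw [hβ, abs_div]
      push_cast
      rw [abs_of_pos hN1, div_le_one hN1]
      exact hN
    have hcos : 0 < Real.cos β := by
      have h3 := abs_le.mp hβ1
      have hpi := Real.pi_gt_three
      apply Real.cos_pos_of_mem_Ioo
      constructor <;> linarith [h3.1, h3.2]
    induction k with
    | zero => simp [hΘ]
    | succ k ih =>
      refine ih.trans ?_
      have h1 := step h hp hx (Θn (k * β)) (Θn ((k + 1 : ℕ) * β)) (Θx _) (Θx _) (Real.cos β)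
        (by rw [Θi]; congr 1; push_cast; ring) hcos (τ / Real.cos β ^ k) (by positivity)
      rw [div_div, ← pow_succ] at h1
      exact h1
  have hlim : Tendsto (fun N : ℕ => δ x (x + (τ / Real.cos (ψ / (N + 1 : ℕ)) ^ (N + 1)) • θ')) atTop
      (𝓝 (δ x (x + τ • θ'))) := by
    have h1 : Tendsto (fun N : ℕ => x + (τ / Real.cos (ψ / (N + 1 : ℕ)) ^ (N + 1)) • θ') atTop
        (𝓝 (x + τ • θ')) := by
      apply tendsto_const_nhds.add
      apply Tendsto.smul_const
      have := (tendsto_const_nhds (x := τ)).div (cos_pow_tendsto ψ) one_ne_zero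
      rw [div_one] at this
      exact this
    have hx0 := ne_of_norm hx
    have hne : x + τ • θ' ≠ 0 := by
      intro h0
      have := norm_pair hx hθ' hxθ' 1 τ
      rw [one_smul, h0, norm_zero] at this
      nlinarith
    have hopen : IsOpen {p : V × V | p.1 ≠ 0 ∧ p.2 ≠ 0} := by
      apply IsOpen.inter
      · exact isOpen_ne_fun continuous_fst continuous_const
      · exact isOpen_ne_fun continuous_snd continuous_const
    have hc : ContinuousAt (fun p : V × V => δ p.1 p.2) (x, x + τ • θ') :=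
      h.cont.continuousAt (hopen.mem_nhds ⟨hx0, hne⟩)
    exact hc.tendsto.comp (tendsto_const_nhds.prodMk_nhds h1)
  refine ge_of_tendsto hlim ?_
  obtain ⟨M, hM⟩ := exists_nat_ge |ψ|
  filter_upwards [eventually_ge_atTop M] with N hN
  have hψN : |ψ| ≤ (N : ℝ) + 1 := by
    have : (M : ℝ) ≤ N := by exact_mod_cast hN
    linarith
  have h1 := key N hψN (N + 1)
  have h2 : ((N + 1 : ℕ) : ℝ) * (ψ / ((N + 1 : ℕ) : ℝ)) = ψ := by
    have : ((N + 1 : ℕ) : ℝ) ≠ 0 := by positivity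
    field_simp
  rw [h2] at h1
  have h3 : Θ ψ = θ' := by
    simp only [hΘ]; rw [hψ1, hψ2, ← hθ'e]
  rw [h3] at h1
  exact h1

end

theorem round' : S_round := by
  intro δ Λ h hp x θ θ' hx hθ hθ' hxθ hxθ' t ht
  have hx0 := ne_of_norm hx
  rcases eq_or_lt_of_le ht.2 with h1 | h1
  · subst h1
    simp only [Real.cos_pi_div_two, Real.sin_pi_div_two, zero_smul, one_smul, zero_add]
    rw [(hp x θ hx0 (ne_of_norm hθ)).mpr hxθ, (hp x θ' hx0 (ne_of_norm hθ')).mpr hxθ']
  rcases eq_or_lt_of_le ht.1 with h0 | h0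
  · subst h0
    simp
  have hcos : 0 < Real.cos t := Real.cos_pos_of_mem_Ioo ⟨by linarith, h1⟩
  have hsin : 0 < Real.sin t := Real.sin_pos_of_pos_of_lt_pi h0 (by linarith [Real.pi_pos])
  set τ := Real.sin t / Real.cos t with hτ
  have hτ0 : 0 < τ := div_pos hsin hcos
  have e1 : ∀ φ : V, ‖φ‖ = 1 → inner ℝ x φ = 0 →
      δ x (Real.cos t • x + Real.sin t • φ) = δ x (x + τ • φ) := by
    intro φ hφ hxφ
    have ne1 : x + τ • φ ≠ 0 := by
      intro h0
      have := norm_pair hx hφ hxφ 1 τ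
      rw [one_smul, h0, norm_zero] at this
      nlinarith
    have : Real.cos t • x + Real.sin t • φ = Real.cos t • (x + τ • φ) := by
      rw [smul_add, smul_smul, hτ, mul_div_cancel₀ _ hcos.ne']
    rw [this, hom2 h hx0 ne1 hcos.ne']
  rw [e1 θ hθ hxθ, e1 θ' hθ' hxθ']
  exact le_antisymm (round_le h hp hx hθ hθ' hxθ hxθ' τ hτ0) (round_le h hp hx hθ' hθ hxθ' hxθ τ hτ0)

theorem T_round (_ : S_le) : S_round := round'

/-- A unit vector orthogonal to two given vectors. -/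
theorem exists_perp (x z : V) : ∃ e : V, ‖e‖ = 1 ∧ inner ℝ x e = 0 ∧ inner ℝ z e = 0 := by
  set φ : V →ₗ[ℝ] ℝ := (innerSL ℝ x).toLinearMap with hφ
  set ψ : V →ₗ[ℝ] ℝ := (innerSL ℝ z).toLinearMap with hψ
  have h1 : ¬ Function.Injective (φ.prod ψ) := by
    intro hinj
    have := LinearMap.finrank_le_finrank_of_injective hinj
    simp at this
  have h2 : LinearMap.ker (φ.prod ψ) ≠ ⊥ := by
    rwa [Ne, LinearMap.ker_eq_bot]
  obtain ⟨e, he, hne⟩ := Submodule.exists_mem_ne_zero_of_ne_bot h2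
  have h3 := LinearMap.mem_ker.mp he
  have hn : ‖e‖ ≠ 0 := norm_ne_zero_iff.mpr hne
  have h4 : inner ℝ x e = (0 : ℝ) := congrArg Prod.fst h3
  have h5 : inner ℝ z e = (0 : ℝ) := congrArg Prod.snd h3
  refine ⟨‖e‖⁻¹ • e, ?_, ?_, ?_⟩
  · rw [norm_smul, norm_inv, norm_norm, inv_mul_cancel₀ hn]
  · rw [real_inner_smul_right, h4, mul_zero]
  · rw [real_inner_smul_right, h5, mul_zero]

theorem std' : S_std := by
  intro δ Λ h hp
  have hpi := Real.pi_pos
  -- a unit vector orthogonal to x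
  have hperp : ∀ x : V, ∃ θ : V, ‖θ‖ = 1 ∧ inner ℝ x θ = 0 := fun x => by
    obtain ⟨e, he, h1, -⟩ := exists_perp x x
    exact ⟨e, he, h1⟩
  choose θ hθ hxθ using hperp
  set Φ : V → ℝ → ℝ := fun x s => δ x (Real.cos s • x + Real.sin s • θ x) with hΦ
  -- S1
  have S1 : ∀ x z : V, ‖x‖ = 1 → ‖z‖ = 1 → ∀ s ∈ Icc 0 (Real.pi / 2), inner ℝ x z = Real.cos s →
      δ x z = Φ x s := by
    intro x z hx hz s hs hxz
    have i1 : inner ℝ x x = (1 : ℝ) := by rw [real_inner_self_eq_norm_sq, hx]; norm_num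
    have i2 : inner ℝ z z = (1 : ℝ) := by rw [real_inner_self_eq_norm_sq, hz]; norm_num
    have i3 : inner ℝ z x = Real.cos s := by rw [real_inner_comm]; exact hxz
    have hnorm : ‖z - Real.cos s • x‖ ^ 2 = Real.sin s ^ 2 := by
      rw [← real_inner_self_eq_norm_sq]
      simp only [inner_sub_left, inner_sub_right, real_inner_smul_left, real_inner_smul_right, i1, i2,
        i3, hxz]
      nlinarith [Real.cos_sq_add_sin_sq s]
    rcases eq_or_lt_of_le hs.1 with h0 | h0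
    · subst h0
      rw [Real.sin_zero] at hnorm
      have h1 : z - Real.cos 0 • x = 0 := by
        rw [← norm_eq_zero]
        nlinarith [norm_nonneg (z - Real.cos 0 • x)]
      rw [Real.cos_zero, one_smul, sub_eq_zero] at h1
      simp only [hΦ, Real.cos_zero, Real.sin_zero, one_smul, zero_smul, add_zero, h1]
    · have hsin : 0 < Real.sin s := Real.sin_pos_of_pos_of_lt_pi h0 (by linarith [hs.2])
      have hn2 : ‖z - Real.cos s • x‖ = Real.sin s := by
        have h1 := norm_nonneg (z - Real.cos s • x)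
        exact (pow_left_inj₀ h1 hsin.le two_ne_zero).mp hnorm
      set φ := (Real.sin s)⁻¹ • (z - Real.cos s • x) with hφ
      have hφn : ‖φ‖ = 1 := by
        rw [hφ, norm_smul, hn2, Real.norm_of_nonneg (by positivity), inv_mul_cancel₀ hsin.ne']
      have hxφ : inner ℝ x φ = 0 := by
        rw [hφ, real_inner_smul_right, inner_sub_right, real_inner_smul_right, hxz, i1]; ring
      have hz2 : z = Real.cos s • x + Real.sin s • φ := by
        rw [hφ, smul_smul, mul_inv_cancel₀ hsin.ne', one_smul]; abel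
      have := round' δ Λ h hp x φ (θ x) hx hφn (hθ x) hxφ (hxθ x) s hs
      rw [← hz2] at this
      exact this
  have S2 : ∀ x z : V, ‖x‖ = 1 → ‖z‖ = 1 → ∀ s ∈ Icc 0 (Real.pi / 2), inner ℝ x z = Real.cos s →
      Φ x s = Φ z s := by
    intro x z hx hz s hs hxz
    rw [← S1 x z hx hz s hs hxz, h.symm x z (ne_of_norm hx) (ne_of_norm hz)]
    exact S1 z x hz hx s hs (by rw [real_inner_comm]; exact hxz)
  -- (A)
  have A : ∀ x z : V, ‖x‖ = 1 → ‖z‖ = 1 → ∀ s ∈ Icc 0 (Real.pi / 2), 0 ≤ inner ℝ x z →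
      2 * Real.cos s ^ 2 - 1 ≤ inner ℝ x z → Φ x s = Φ z s := by
    intro x z hx hz s hs h0 hc
    obtain ⟨e, he, hxe, hze⟩ := exists_perp x z
    set c : ℝ := inner ℝ x z with hcdef
    have i1 : inner ℝ x x = (1 : ℝ) := by rw [real_inner_self_eq_norm_sq, hx]; norm_num
    have i2 : inner ℝ z z = (1 : ℝ) := by rw [real_inner_self_eq_norm_sq, hz]; norm_num
    have i3 : inner ℝ z x = c := by rw [real_inner_comm]
    have i4 : inner ℝ e e = (1 : ℝ) := by rw [real_inner_self_eq_norm_sq, he]; norm_num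
    have i5 : inner ℝ e x = (0 : ℝ) := by rw [real_inner_comm]; exact hxe
    have i6 : inner ℝ e z = (0 : ℝ) := by rw [real_inner_comm]; exact hze
    have hc1 : 0 < 1 + c := by linarith
    set Aa := Real.cos s / (1 + c) with hAa
    have hD : 0 ≤ 1 - 2 * Real.cos s ^ 2 / (1 + c) := by
      rw [sub_nonneg, div_le_one hc1]; linarith
    set C := Real.sqrt (1 - 2 * Real.cos s ^ 2 / (1 + c)) with hC
    have hC2 : C * C = 1 - 2 * Real.cos s ^ 2 / (1 + c) := Real.mul_self_sqrt hD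
    set W : V := Aa • x + Aa • z + C • e with hW
    have hxW : inner ℝ x W = Real.cos s := by
      simp only [hW, inner_add_right, real_inner_smul_right, i1, hxe, ← hcdef]
      rw [hAa]; field_simp; ring
    have hzW : inner ℝ z W = Real.cos s := by
      simp only [hW, inner_add_right, real_inner_smul_right, i2, i3, hze]
      rw [hAa]; field_simp; ring
    have hWW : ‖W‖ ^ 2 = 1 := by
      rw [← real_inner_self_eq_norm_sq]
      have e1 : inner ℝ W W = Aa * inner ℝ x W + Aa * inner ℝ z W + C * inner ℝ e W := by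
        conv_lhs => rw [hW]
        simp only [inner_add_left, real_inner_smul_left]
        rfl
      have e2 : inner ℝ e W = C := by
        simp only [hW, inner_add_right, real_inner_smul_right, i4, i5, i6]; ring
      rw [e1, hxW, hzW, e2, hC2, hAa]
      field_simp
      ring
    have hWn : ‖W‖ = 1 := by
      have := norm_nonneg W
      nlinarith
    rw [S2 x W hx hWn s hs hxW, S2 z W hz hWn s hs hzW]
  -- basic facts from the line
  have L : ∀ x : V, ‖x‖ = 1 → (∀ s t, 0 ≤ s → s < t → t ≤ Real.pi / 2 → Φ x s < Φ x t) ∧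
      Φ x 0 = 0 ∧ Φ x (Real.pi / 2) = Λ / 2 ∧
      ∀ s t, 0 ≤ s → 0 ≤ t → s + t ≤ Real.pi / 2 →
        Φ x (s + t) = Φ x s + Φ (Real.cos s • x + Real.sin s • θ x) t := by
    intro x hx
    obtain ⟨l, hmono, l0, lh, hl, -, hl2⟩ := line_facts h hp hx (hθ x) (hxθ x)
    have e1 : ∀ t ∈ Icc 0 (Real.pi / 2), Φ x t = l t := hl
    refine ⟨?_, ?_, ?_, ?_⟩
    · intro s t hs hst ht
      rw [e1 s ⟨hs, by linarith⟩, e1 t ⟨by linarith, ht⟩]
      exact hmono ⟨hs, by linarith⟩ ⟨by linarith, by linarith⟩ hst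
    · rw [e1 0 ⟨le_rfl, by linarith⟩, l0]
    · rw [e1 _ ⟨by linarith, le_rfl⟩, lh]
    · intro s t hs ht hst
      have h1 := hl2 s t hs ht hst
      have hn := norm_cs hx (hθ x) (hxθ x)
      rw [S1 _ _ (hn s) (hn (s + t)) t ⟨ht, by linarith⟩ (by
        rw [inner_pair hx (hθ x) (hxθ x), ← Real.cos_sub]
        rw [← Real.cos_neg]; congr 1; ring)] at h1
      rw [e1 (s + t) ⟨by linarith, hst⟩, e1 s ⟨hs, by linarith⟩, h1]
      ring
  have hin : ∀ (x : V) (s : ℝ), ‖x‖ = 1 →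
      inner ℝ x (Real.cos s • x + Real.sin s • θ x) = Real.cos s := fun x s hx =>
    inner_x hx (hθ x) (hxθ x) _ _
  -- doubling
  have Dbl : ∀ x : V, ‖x‖ = 1 → ∀ s, 0 ≤ s → s ≤ Real.pi / 4 → Φ x (2 * s) = 2 * Φ x s := by
    intro x hx s hs hs4
    have h1 := (L x hx).2.2.2 s s hs hs (by linarith)
    rw [← S2 x _ hx (norm_cs hx (hθ x) (hxθ x) s) s ⟨hs, by linarith⟩ (hin x s hx)] at h1
    rw [two_mul, h1]; ring
  have Dbln : ∀ x : V, ‖x‖ = 1 → ∀ (n : ℕ) (s : ℝ), 0 ≤ s → 2 ^ n * s ≤ Real.pi / 2 →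
      Φ x (2 ^ n * s) = 2 ^ n * Φ x s := by
    intro x hx n
    induction n with
    | zero => intro s _ _; simp
    | succ n ih =>
      intro s hs hns
      have h1 : (0 : ℝ) < 2 ^ n := by positivity
      have h2 : 2 ^ n * s ≤ Real.pi / 4 := by
        rw [pow_succ] at hns; nlinarith
      rw [pow_succ, mul_comm ((2 : ℝ) ^ n) 2, mul_assoc, Dbl x hx (2 ^ n * s) (by positivity) h2,
        ih s hs (by linarith)]
      ring
  -- (C)
  have Cc : ∀ x z : V, ‖x‖ = 1 → ‖z‖ = 1 → 0 ≤ inner ℝ x z → ∀ t ∈ Icc 0 (Real.pi / 2),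
      Φ x t = Φ z t := by
    intro x z hx hz hxz t ht
    rcases eq_or_lt_of_le ht.1 with h0 | h0
    · rw [← h0, (L x hx).2.1, (L z hz).2.1]
    -- choose n maximal with 2 ^ n * t ≤ pi / 2
    obtain ⟨n, hn1, hn2⟩ : ∃ n : ℕ, 2 ^ n * t ≤ Real.pi / 2 ∧ Real.pi / 2 < 2 ^ (n + 1) * t := by
      have hex : ∃ n : ℕ, Real.pi / 2 < 2 ^ n * t := by
        obtain ⟨n, hn⟩ := pow_unbounded_of_one_lt (Real.pi / 2 / t) (one_lt_two)
        refine ⟨n, ?_⟩
        rwa [div_lt_iff₀ h0] at hn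
      classical
      have hfind := Nat.find_spec hex
      have hpos : Nat.find hex ≠ 0 := by
        intro h1
        rw [h1] at hfind
        linarith [ht.2]
      obtain ⟨m, hm⟩ := Nat.exists_eq_succ_of_ne_zero hpos
      refine ⟨m, ?_, ?_⟩
      · exact not_lt.mp (Nat.find_min hex (by omega))
      · rw [hm] at hfind; exact hfind
    have hs : 2 ^ n * t ∈ Icc 0 (Real.pi / 2) := ⟨by positivity, hn1⟩
    have hcos : 2 * Real.cos (2 ^ n * t) ^ 2 - 1 ≤ 0 := by
      rw [← Real.cos_two_mul]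
      apply Real.cos_nonpos_of_pi_div_two_le_of_le
      · rw [pow_succ] at hn2; linarith
      · linarith
    have h1 := A x z hx hz _ hs hxz (hcos.trans hxz)
    rw [Dbln x hx n t h0.le hn1, Dbln z hz n t h0.le hn1] at h1
    exact mul_left_cancel₀ (by positivity) h1
  -- (D) additivity
  have Dd : ∀ x : V, ‖x‖ = 1 → ∀ s t, 0 ≤ s → 0 ≤ t → s + t ≤ Real.pi / 2 →
      Φ x (s + t) = Φ x s + Φ x t := by
    intro x hx s t hs ht hst
    rw [(L x hx).2.2.2 s t hs ht hst]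
    rw [← Cc x _ hx (norm_cs hx (hθ x) (hxθ x) s) (by
      rw [hin x s hx]; exact Real.cos_nonneg_of_mem_Icc ⟨by linarith, by linarith⟩) t ⟨ht, by linarith⟩]
  have Dn : ∀ x : V, ‖x‖ = 1 → ∀ (k : ℕ) (s : ℝ), 0 ≤ s → k * s ≤ Real.pi / 2 →
      Φ x (k * s) = k * Φ x s := by
    intro x hx k
    induction k with
    | zero => intro s _ _; simp [(L x hx).2.1]
    | succ k ih =>
      intro s hs hks
      have h1 : (k : ℝ) * s + s ≤ Real.pi / 2 := by push_cast at hks; linarith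
      have h2 : ((k + 1 : ℕ) : ℝ) * s = k * s + s := by push_cast; ring
      rw [h2, Dd x hx (k * s) s (by positivity) hs h1, ih s hs (by linarith)]
      push_cast; ring
  have hΦ0 : ∀ x : V, ‖x‖ = 1 → ∀ t ∈ Icc 0 (Real.pi / 2), 0 ≤ Φ x t ∧ Φ x t ≤ Λ / 2 := by
    intro x hx t ht
    obtain ⟨hm, h0, hh, -⟩ := L x hx
    constructor
    · rcases eq_or_lt_of_le ht.1 with h1 | h1
      · rw [← h1, h0]
      · have := hm 0 t le_rfl h1 ht.2
        linarith
    · rcases eq_or_lt_of_le ht.2 with h1 | h1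
      · rw [h1, hh]
      · have := hm t _ ht.1 h1 le_rfl
        linarith
  have hlin : ∀ x : V, ‖x‖ = 1 → ∀ t ∈ Icc 0 (Real.pi / 2), Φ x t = Λ / Real.pi * t := by
    intro x hx t ht
    have hΛ := h.lam
    -- the error is at most Λ / n for all n
    have herr : ∀ n : ℕ, 0 < n → |Φ x t - Λ / Real.pi * t| ≤ Λ / n := by
      intro n hn
      have hn0 : (0 : ℝ) < n := by exact_mod_cast hn
      set η := Real.pi / 2 / n with hη
      have hη0 : 0 < η := by positivity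
      have hΦη : Φ x η = Λ / 2 / n := by
        have h1 := Dn x hx n η hη0.le (by rw [hη]; field_simp; rfl)
        rw [hη, mul_div_cancel₀ _ hn0.ne', (L x hx).2.2.1, ← hη] at h1
        rw [h1]; field_simp
      set k := ⌊t / η⌋₊ with hk
      have hk1 : (k : ℝ) * η ≤ t := by
        have := Nat.floor_le (div_nonneg ht.1 hη0.le)
        rwa [le_div_iff₀ hη0] at this
      have hk2 : t < ((k : ℝ) + 1) * η := by
        have := Nat.lt_floor_add_one (t / η)
        rwa [div_lt_iff₀ hη0] at this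
      set ρ := t - k * η with hρ
      have hρ0 : 0 ≤ ρ := by linarith
      have hρ1 : ρ ≤ η := by linarith
      have h1 : Φ x t = k * (Λ / 2 / n) + Φ x ρ := by
        have h2 : t = k * η + ρ := by rw [hρ]; ring
        have h3 := Dd x hx (k * η) ρ (by positivity) hρ0 (by rw [← h2]; exact ht.2)
        rw [← h2, Dn x hx k η hη0.le (hk1.trans ht.2), hΦη] at h3
        exact h3
      have hηle : η ≤ Real.pi / 2 := by
        rw [hη]; apply div_le_self (by positivity); exact_mod_cast hn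
      have h4 : Φ x ρ ≤ Λ / 2 / n := by
        rcases eq_or_lt_of_le hρ1 with h5 | h5
        · rw [h5, hΦη]
        · have := (L x hx).1 ρ η hρ0 h5 hηle
          rw [hΦη] at this; linarith
      have h5 := (hΦ0 x hx ρ ⟨hρ0, by linarith⟩).1
      have h6 : Λ / Real.pi * t = k * (Λ / 2 / n) + Λ / Real.pi * ρ := by
        rw [hρ, hη]; field_simp; ring
      have h7 : Λ / Real.pi * ρ ≤ Λ / 2 / n := by
        calc Λ / Real.pi * ρ ≤ Λ / Real.pi * η := by gcongr
          _ = Λ / 2 / n := by rw [hη]; field_simp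
      have h8 : 0 ≤ Λ / Real.pi * ρ := by positivity
      have h9 : Λ / 2 / n ≤ Λ / n := by
        rw [div_div, div_le_div_iff₀ (by positivity) hn0]
        nlinarith [mul_pos hΛ hn0]
      rw [h1, h6, abs_le]
      constructor <;> linarith
    have hlim : Tendsto (fun n : ℕ => Λ / (n : ℝ)) atTop (𝓝 0) :=
      tendsto_const_nhds.div_atTop tendsto_natCast_atTop_atTop
    have h1 : |Φ x t - Λ / Real.pi * t| ≤ 0 := by
      refine ge_of_tendsto hlim ?_
      filter_upwards [eventually_gt_atTop 0] with n hn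
      exact herr n hn
    have h2 := abs_nonpos_iff.mp h1
    linarith
  -- conclusion
  intro x y hx hy
  set s := Real.arccos |inner ℝ x y| with hs
  have hle : |(inner ℝ x y : ℝ)| ≤ 1 := by
    have := abs_real_inner_le_norm x y
    rwa [hx, hy, one_mul] at this
  have hcs : Real.cos s = |inner ℝ x y| :=
    Real.cos_arccos (by linarith [abs_nonneg (inner ℝ x y : ℝ)]) hle
  have hsm : s ∈ Icc 0 (Real.pi / 2) := by
    refine ⟨Real.arccos_nonneg _, ?_⟩
    rw [hs, Real.arccos_le_pi_div_two]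
    exact abs_nonneg _
  rcases abs_choice (inner ℝ x y : ℝ) with h1 | h1
  · rw [S1 x y hx hy s hsm (by rw [hcs, h1]), hlin x hx s hsm]
  · have h2 : δ x y = δ x (-y) := by
      have := hom2 h (ne_of_norm hx) (ne_of_norm hy) (c := -1) (by norm_num)
      rw [neg_one_smul] at this
      exact this.symm
    rw [h2, S1 x (-y) hx (by rw [norm_neg]; exact hy) s hsm (by rw [hcs, h1, inner_neg_right]),
      hlin x hx s hsm]

theorem T_std (_ : S_le) (_ : S_round) : S_std := std'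

end Pool.Agent.W356.PMB
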